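import Mathlib

/-!
# Two-step nilpotent groups in coordinates (MP_663568_nt)

`Two B` is `ℝ^d × ℝ^r` with `(x, z) (x', z') = (x + x', z + z' + B(x, x'))`, `B` an integral bilinear
map, and `Gam B` is the subgroup of the integral points.  (helper95)
-/

set_option autoImplicit false
open Finset

namespace Pool.Agent.TS2

variable {d r : ℕ}

/-- The bilinear map with the integral coefficients `B`. -/
def bil (B : Fin r → Fin d → Fin d → ℤ) (x y : Fin d → ℝ) : Fin r → ℝ :=
  fun c => ∑ i, ∑ j, (B c i j : ℝ) * (x i * y j)

lemma bil_add_left (B : Fin r → Fin d → Fin d → ℤ) (x x' y : Fin d → ℝ) :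
    bil B (x + x') y = bil B x y + bil B x' y := by
  funext c
  simp only [bil, Pi.add_apply, ← sum_add_distrib]
  exact sum_congr rfl fun i _ => sum_congr rfl fun j _ => by ring

lemma bil_add_right (B : Fin r → Fin d → Fin d → ℤ) (x y y' : Fin d → ℝ) :
    bil B x (y + y') = bil B x y + bil B x y' := by
  funext c
  simp only [bil, Pi.add_apply, ← sum_add_distrib]
  exact sum_congr rfl fun i _ => sum_congr rfl fun j _ => by ring

lemma bil_smul_left (B : Fin r → Fin d → Fin d → ℤ) (s : ℝ) (x y : Fin d → ℝ) :
    bil B (s • x) y = s • bil B x y := by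
  funext c
  simp only [bil, Pi.smul_apply, smul_eq_mul, mul_sum]
  exact sum_congr rfl fun i _ => sum_congr rfl fun j _ => by ring

lemma bil_smul_right (B : Fin r → Fin d → Fin d → ℤ) (s : ℝ) (x y : Fin d → ℝ) :
    bil B x (s • y) = s • bil B x y := by
  funext c
  simp only [bil, Pi.smul_apply, smul_eq_mul, mul_sum]
  exact sum_congr rfl fun i _ => sum_congr rfl fun j _ => by ring

@[simp] lemma bil_zero_left (B : Fin r → Fin d → Fin d → ℤ) (y : Fin d → ℝ) : bil B 0 y = 0 := by
  have := bil_smul_left B 0 0 y
  simpa using this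

@[simp] lemma bil_zero_right (B : Fin r → Fin d → Fin d → ℤ) (x : Fin d → ℝ) : bil B x 0 = 0 := by
  have := bil_smul_right B 0 x 0
  simpa using this

lemma bil_neg_left (B : Fin r → Fin d → Fin d → ℤ) (x y : Fin d → ℝ) :
    bil B (-x) y = -bil B x y := by
  have := bil_smul_left B (-1) x y
  simpa using this

lemma bil_neg_right (B : Fin r → Fin d → Fin d → ℤ) (x y : Fin d → ℝ) :
    bil B x (-y) = -bil B x y := by
  have := bil_smul_right B (-1) x y
  simpa using this

lemma continuous_bil (B : Fin r → Fin d → Fin d → ℤ) {α : Type*} [TopologicalSpace α]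
    {f g : α → Fin d → ℝ} (hf : Continuous f) (hg : Continuous g) :
    Continuous fun a => bil B (f a) (g a) := by
  refine continuous_pi fun c => ?_
  unfold bil
  refine continuous_finsetSum _ fun i _ => continuous_finsetSum _ fun j _ => ?_
  exact continuous_const.mul (((continuous_apply i).comp hf).mul ((continuous_apply j).comp hg))

/-- The group `ℝ^d × ℝ^r` with `(x, z) (x', z') = (x + x', z + z' + B(x, x'))`. -/
@[ext] structure Two (B : Fin r → Fin d → Fin d → ℤ) where
  x : Fin d → ℝ
  z : Fin r → ℝ

namespace Two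

variable {B : Fin r → Fin d → Fin d → ℤ}

instance : Mul (Two B) := ⟨fun g h => ⟨g.x + h.x, g.z + h.z + bil B g.x h.x⟩⟩
instance : One (Two B) := ⟨⟨0, 0⟩⟩
instance : Inv (Two B) := ⟨fun g => ⟨-g.x, -g.z + bil B g.x g.x⟩⟩

@[simp] lemma mul_x (g h : Two B) : (g * h).x = g.x + h.x := rfl
@[simp] lemma mul_z (g h : Two B) : (g * h).z = g.z + h.z + bil B g.x h.x := rfl
@[simp] lemma one_x : (1 : Two B).x = 0 := rfl
@[simp] lemma one_z : (1 : Two B).z = 0 := rfl
@[simp] lemma inv_x (g : Two B) : g⁻¹.x = -g.x := rfl
@[simp] lemma inv_z (g : Two B) : g⁻¹.z = -g.z + bil B g.x g.x := rfl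

instance : Group (Two B) :=
  Group.ofLeftAxioms
    (fun a b c => by
      apply Two.ext
      · simp [add_assoc]
      · simp only [mul_z, mul_x, bil_add_left, bil_add_right]
        abel)
    (fun a => by
      apply Two.ext <;> simp)
    (fun a => by
      apply Two.ext
      · simp
      · simp only [mul_z, inv_z, inv_x, one_z, bil_neg_left]
        abel)

/-- The usual topology. -/
instance : TopologicalSpace (Two B) :=
  TopologicalSpace.induced (fun g : Two B => (g.x, g.z)) inferInstance

lemma continuous_x : Continuous (Two.x : Two B → _) :=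
  (continuous_fst.comp continuous_induced_dom : Continuous fun g : Two B => (g.x, g.z).1)

lemma continuous_z : Continuous (Two.z : Two B → _) :=
  (continuous_snd.comp continuous_induced_dom : Continuous fun g : Two B => (g.x, g.z).2)

lemma continuous_mk {α : Type*} [TopologicalSpace α] {f : α → Fin d → ℝ} {g : α → Fin r → ℝ}
    (hf : Continuous f) (hg : Continuous g) : Continuous fun a => (⟨f a, g a⟩ : Two B) :=
  continuous_induced_rng.2 (hf.prodMk hg)

instance : IsTopologicalGroup (Two B) where
  continuous_mul := by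
    have h1 : Continuous fun p : Two B × Two B => p.1.x := continuous_x.comp continuous_fst
    have h2 : Continuous fun p : Two B × Two B => p.2.x := continuous_x.comp continuous_snd
    have h3 : Continuous fun p : Two B × Two B => p.1.z := continuous_z.comp continuous_fst
    have h4 : Continuous fun p : Two B × Two B => p.2.z := continuous_z.comp continuous_snd
    exact continuous_mk (h1.add h2) ((h3.add h4).add (continuous_bil B h1 h2))
  continuous_inv :=
    continuous_mk continuous_x.neg (continuous_z.neg.add (continuous_bil B continuous_x continuous_x))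

end Two

lemma bil_int (B : Fin r → Fin d → Fin d → ℤ) (m n : Fin d → ℤ) :
    bil B (fun i => (m i : ℝ)) (fun i => (n i : ℝ)) =
      fun c => ((∑ i, ∑ j, B c i j * (m i * n j) : ℤ) : ℝ) := by
  funext c
  simp only [bil]
  push_cast
  rfl

/-- The subgroup of the integral points. -/
def Gam (B : Fin r → Fin d → Fin d → ℤ) : Subgroup (Two B) where
  carrier := {g | ∃ (m : Fin d → ℤ) (n : Fin r → ℤ), g = ⟨fun i => (m i : ℝ), fun c => (n c : ℝ)⟩}
  mul_mem' := by
    rintro _ _ ⟨m, n, rfl⟩ ⟨m', n', rfl⟩
    refine ⟨m + m', n + n' + fun c => ∑ i, ∑ j, B c i j * (m i * m' j), ?_⟩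
    apply Two.ext
    · funext i
      simp
    · simp only [Two.mul_z, bil_int]
      funext c
      simp
  one_mem' := ⟨0, 0, by apply Two.ext <;> (funext i; simp)⟩
  inv_mem' := by
    rintro _ ⟨m, n, rfl⟩
    refine ⟨-m, -n + fun c => ∑ i, ∑ j, B c i j * (m i * m j), ?_⟩
    apply Two.ext
    · funext i
      simp
    · simp only [Two.inv_z, bil_int]
      funext c
      simp

end Pool.Agent.TS2
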