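import Pool.Agent.Lib.TS2.Defs

/-!
# Row CO: the integral points are cocompact (helper47)
-/

set_option autoImplicit false
open Finset MeasureTheory

namespace Pool.Agent.TS2

open Pool.Agent.Lib.MP_663568_nt Pool.Agent.Lib.MP_663568_nt.Katai
  Pool.Agent.Lib.MP_663568_nt.Nul Pool.Agent.Lib.MP_663568_nt.Fib

namespace COx

variable {d r : ℕ} {B : Fin r → Fin d → Fin d → ℤ}

/-- The box `[0,1]^d × [0,1]^r` is compact. -/
lemma isCompact_box : IsCompact {g : Two B | g.x ∈ Set.Icc (0 : Fin d → ℝ) 1 ∧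
    g.z ∈ Set.Icc (0 : Fin r → ℝ) 1} := by
  have h1 : IsCompact (Set.Icc (0 : Fin d → ℝ) 1 ×ˢ Set.Icc (0 : Fin r → ℝ) 1) :=
    isCompact_Icc.prod isCompact_Icc
  have h2 : Continuous fun p : (Fin d → ℝ) × (Fin r → ℝ) => (⟨p.1, p.2⟩ : Two B) :=
    Two.continuous_mk continuous_fst continuous_snd
  have h3 := h1.image h2
  convert h3 using 1
  ext g
  constructor
  · rintro ⟨hx, hz⟩
    exact ⟨(g.x, g.z), ⟨hx, hz⟩, rfl⟩
  · rintro ⟨⟨a, b⟩, ⟨ha, hb⟩, rfl⟩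
    exact ⟨ha, hb⟩

/-- Reduction to the unit cube. -/
lemma exists_red (g : Two B) : ∃ γ ∈ Gam B, (g * γ).x ∈ Set.Icc (0 : Fin d → ℝ) 1 ∧
    (g * γ).z ∈ Set.Icc (0 : Fin r → ℝ) 1 := by
  obtain ⟨m, hm⟩ : ∃ m : Fin d → ℤ, m = fun i => -⌊g.x i⌋ := ⟨_, rfl⟩
  obtain ⟨n, hn⟩ : ∃ n : Fin r → ℤ, n = fun c => -⌊g.z c + bil B g.x (fun i => (m i : ℝ)) c⌋ :=
    ⟨_, rfl⟩
  refine ⟨⟨fun i => (m i : ℝ), fun c => (n c : ℝ)⟩, ⟨m, n, rfl⟩, ⟨fun i => ?_, fun i => ?_⟩,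
    ⟨fun c => ?_, fun c => ?_⟩⟩
  · have h1 := Int.floor_le (g.x i)
    simp only [Two.mul_x, Pi.add_apply, Pi.zero_apply, hm]
    push_cast
    linarith
  · have h1 := Int.lt_floor_add_one (g.x i)
    simp only [Two.mul_x, Pi.add_apply, Pi.one_apply, hm]
    push_cast
    linarith
  · have h1 := Int.floor_le (g.z c + bil B g.x (fun i => (m i : ℝ)) c)
    have h2 : (n c : ℝ) = -((⌊g.z c + bil B g.x (fun i => (m i : ℝ)) c⌋ : ℤ) : ℝ) := by
      rw [hn]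
      push_cast
      rfl
    simp only [Two.mul_z, Pi.add_apply, Pi.zero_apply]
    linarith
  · have h1 := Int.lt_floor_add_one (g.z c + bil B g.x (fun i => (m i : ℝ)) c)
    have h2 : (n c : ℝ) = -((⌊g.z c + bil B g.x (fun i => (m i : ℝ)) c⌋ : ℤ) : ℝ) := by
      rw [hn]
      push_cast
      rfl
    simp only [Two.mul_z, Pi.add_apply, Pi.one_apply]
    linarith

end COx

open COx in
/-- Row CO: `Γ` is cocompact. -/
theorem rowCO : CO_stmt := by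
  intro d r B
  refine ⟨_, isCompact_box, fun g => ?_⟩
  obtain ⟨γ, hγ, h1, h2⟩ := exists_red g
  exact ⟨g * γ, ⟨h1, h2⟩, γ⁻¹, (Gam B).inv_mem hγ, by rw [mul_assoc, mul_inv_cancel, mul_one]⟩

end Pool.Agent.TS2
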