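import Mathlib
import Pool.Agent.Lib.TS2.Grp
import Pool.Agent.Lib.HB.Defs

/-!
# Two-step nilpotent groups, vertical frequencies of rank two (MP_663568_nt): definitions and rows

`G = Two B`, `Γ = Gam B`, `k` a vertical frequency, `om B k` its commutator form.  If `om B k` has
rank two, the functions of frequency `k` are sums of functions which come from the Heisenberg group,
and the theorem of `Lib/HB` applies.  (helper95)
-/

set_option autoImplicit false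
open Finset MeasureTheory

namespace Pool.Agent.TS2

open Pool.Agent.Lib.MP_663568_nt Pool.Agent.Lib.MP_663568_nt.Katai
  Pool.Agent.Lib.MP_663568_nt.Nul Pool.Agent.Lib.MP_663568_nt.Fib

noncomputable section

variable {d r : ℕ}

/-- An integral vector as a real vector. -/
def ic (m : Fin d → ℤ) : Fin d → ℝ := fun i => (m i : ℝ)

/-- `k · z` -/
def kz (k : Fin r → ℤ) (z : Fin r → ℝ) : ℝ := ∑ c, (k c : ℝ) * z c

/-- The commutator form of the frequency `k`. -/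
def om (B : Fin r → Fin d → Fin d → ℤ) (k : Fin r → ℤ) (x y : Fin d → ℝ) : ℝ :=
  ∑ c, (k c : ℝ) * (bil B x y c - bil B y x c)

/-- `om B k` has rank two. -/
def Rk2 (B : Fin r → Fin d → Fin d → ℤ) (k : Fin r → ℤ) : Prop :=
  (∃ x y, om B k x y ≠ 0) ∧ ∃ u v : Fin d → ℝ, ∀ x y, om B k x y =
    (∑ i, u i * x i) * (∑ i, v i * y i) - (∑ i, u i * y i) * (∑ i, v i * x i)

/-- The form `om B k` is determined by its values at `p` and `q`, and `m = om B k p q ≠ 0`. -/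
def Plu (B : Fin r → Fin d → Fin d → ℤ) (k : Fin r → ℤ) (p q : Fin d → ℤ) (m : ℤ) : Prop :=
  m ≠ 0 ∧ om B k (ic p) (ic q) = m ∧ ∀ x y, (m : ℝ) * om B k x y =
    om B k (ic p) x * om B k (ic q) y - om B k (ic p) y * om B k (ic q) x

/-- The functions on `G ⧸ Γ` (as functions on `G`) of vertical frequency `k`. -/
def VerK {B : Fin r → Fin d → Fin d → ℤ} (k : Fin r → ℤ) (F : Two B → ℂ) : Prop :=
  Reg (Gam B) F ∧ ∀ (g : Two B) (z : Fin r → ℝ), F (g * ⟨0, z⟩) = ee (kz k z) * F g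

/-- The component of frequency `k`. -/
def PInt {B : Fin r → Fin d → Fin d → ℤ} (k : Fin r → ℤ) (f : Two B → ℂ) (g : Two B) : ℂ :=
  ∫ z in Set.Icc (0 : Fin r → ℝ) 1, ee (-(kz k z)) * f (g * ⟨0, z⟩)

/-- All vertical frequencies of `f` have rank two. -/
def Sp2 {B : Fin r → Fin d → Fin d → ℤ} (f : Two B → ℂ) : Prop :=
  ∀ k : Fin r → ℤ, ¬ Rk2 B k → ∀ g, PInt k f g = 0

/-- One window. -/
def W2 {B : Fin r → Fin d → Fin d → ℤ} (F : Two B → ℂ) (S : Set (Two B)) (H n : ℕ) : ℝ :=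
  ⨆ v : {v : Two B × Two B // v.1 ∈ S}, ‖∑ h ∈ Icc 1 H, muC (n + h) * F (v.1.1 ^ h * v.1.2)‖

/-- The average over the windows. -/
def A2 {B : Fin r → Fin d → Fin d → ℤ} (F : Two B → ℂ) (S : Set (Two B)) (N H : ℕ) : ℝ :=
  ∑ n ∈ Icc 1 N, (1 / (n : ℝ)) * W2 F S H n

/-- The average of Q1 with base point `x₀`. -/
def AE2 {B : Fin r → Fin d → Fin d → ℤ} (f : Two B → ℂ) (E : Set (Fin d → ℝ)) (x₀ : Two B)
    (N H : ℕ) : ℝ :=
  ∑ n ∈ Icc 1 N, (1 / (n : ℝ)) * ⨆ g : {g : Two B // g.x ∈ E},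
    ‖∑ h ∈ Icc 1 H, f ((g : Two B) ^ (h + n) * x₀) * muC (n + h)‖

/-- The elements over `E`. -/
def Over2 (B : Fin r → Fin d → Fin d → ℤ) (E : Set (Fin d → ℝ)) : Set (Two B) := {g | g.x ∈ E}

/-- `F` is an eigenfunction of the left translations by the elements over the radical. -/
def Eig {B : Fin r → Fin d → Fin d → ℤ} (k : Fin r → ℤ) (F : Two B → ℂ) : Prop :=
  VerK k F ∧ ∀ w : Two B, (∀ y, om B k w.x y = 0) → ∃ lam : ℝ, ∀ g, F (w * g) = ee lam * F g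

/-- The homomorphism from the Heisenberg group defined by two integral vectors `p`, `q`. -/
def th (B : Fin r → Fin d → Fin d → ℤ) (p q : Fin d → ℤ) (u : HB.Heis) : Two B :=
  ⟨u.x • ic p + u.y • ic q, ((u.x ^ 2 - u.x) / 2) • bil B (ic p) (ic p) +
    ((u.y ^ 2 - u.y) / 2) • bil B (ic q) (ic q) + (u.x * u.y) • bil B (ic q) (ic p) +
    u.z • (bil B (ic p) (ic q) - bil B (ic q) (ic p))⟩

/-- The coordinates of `x` with respect to `p`, `q`. -/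
def M1 (B : Fin r → Fin d → Fin d → ℤ) (k : Fin r → ℤ) (p q : Fin d → ℤ) (m : ℤ)
    (x : Fin d → ℝ) : ℝ × ℝ := (om B k x (ic q) / m, om B k (ic p) x / m)

/-- The horizontal part of the homomorphism to the Heisenberg group. -/
def M2 (B : Fin r → Fin d → Fin d → ℤ) (k : Fin r → ℤ) (p q : Fin d → ℤ)
    (x : Fin d → ℝ) : ℝ × ℝ := (2 * om B k (ic p) x, om B k (ic q) x)

/-- First condition, for one frequency. -/
def LF (B : Fin r → Fin d → Fin d → ℤ) (k : Fin r → ℤ) (E : Set (Fin d → ℝ)) : Prop :=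
  ∀ x ∈ E, ∀ q : Fin d → ℤ, (∃ y, om B k y (ic q) ≠ 0) → om B k x (ic q) ≠ 0

/-- Second condition, for one frequency. -/
def QN (B : Fin r → Fin d → Fin d → ℤ) (k : Fin r → ℤ) (E : Set (Fin d → ℝ)) : Prop :=
  ∀ (q q' : Fin d → ℤ) (s : ℚ), s ≠ 0 →
    volume {y : ℝ | ∃ x ∈ E, om B k x (ic q) = s ∧ y = om B k x (ic q')} = 0

/-- The estimate of Q1 for the functions of frequency one on the Heisenberg group. -/
def Q1V (E : Set (ℝ × ℝ)) : Prop := ∀ f : HB.Heis → ℂ, HB.Ver 1 f → ∀ x₀ : HB.Heis,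
  HB.Sm (HB.AE f E x₀)

/-! ### The rows -/

/-- Row CO: `Γ` is cocompact. -/
def CO_stmt : Prop := ∀ (d r : ℕ) (B : Fin r → Fin d → Fin d → ℤ), Cocompact' (Gam B)

/-- Row PLK: a form of rank two is determined by its values at two integral vectors. -/
def PLK_stmt : Prop := ∀ (d r : ℕ) (B : Fin r → Fin d → Fin d → ℤ) (k : Fin r → ℤ), Rk2 B k →
  ∃ (p q : Fin d → ℤ) (m : ℤ), Plu B k p q m

/-- Row INT: the integrals of the characters over the unit cube. -/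
def INT_stmt : Prop := ∀ (r : ℕ) (l : Fin r → ℤ), l ≠ 0 →
  ∫ z in Set.Icc (0 : Fin r → ℝ) 1, ee (kz l z) = 0

/-- Row VRT: decomposition into functions with one vertical frequency. -/
def VRT_stmt : Prop := CO_stmt → ∀ (d r : ℕ) (B : Fin r → Fin d → Fin d → ℤ) (f : Two B → ℂ),
  Reg (Gam B) f → Sp2 f → ∀ ε : ℝ, 0 < ε → ∃ (ι : Type) (_ : Fintype ι) (Fs : ι → Two B → ℂ),
    (∀ i, ∃ k, Rk2 B k ∧ VerK k (Fs i)) ∧ ∀ g, ‖f g - ∑ i, Fs i g‖ ≤ ε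

/-- Row RAD: decomposition into eigenfunctions. -/
def RAD_stmt : Prop := CO_stmt → ∀ (d r : ℕ) (B : Fin r → Fin d → Fin d → ℤ) (k : Fin r → ℤ)
  (p q : Fin d → ℤ) (m : ℤ), Plu B k p q m → ∀ F : Two B → ℂ, VerK k F → ∀ ε : ℝ, 0 < ε →
  ∃ (ι : Type) (_ : Fintype ι) (Fs : ι → Two B → ℂ),
    (∀ i, Eig k (Fs i)) ∧ ∀ g, ‖F g - ∑ i, Fs i g‖ ≤ ε

/-- Row TH1: `th` is a homomorphism. -/
def TH1_stmt : Prop := ∀ (d r : ℕ) (B : Fin r → Fin d → Fin d → ℤ) (p q : Fin d → ℤ)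
  (u v : HB.Heis), th B p q (u * v) = th B p q u * th B p q v

/-- Row TH2: the pull back by `th`. -/
def TH2_stmt : Prop := TH1_stmt → ∀ (d r : ℕ) (B : Fin r → Fin d → Fin d → ℤ) (k : Fin r → ℤ)
  (p q : Fin d → ℤ) (m : ℤ), om B k (ic p) (ic q) = m → ∀ F : Two B → ℂ, VerK k F →
  HB.Ver m (fun u => F (th B p q u))

/-- Row ALG: eigenfunctions come from the Heisenberg group. -/
def ALG_stmt : Prop := TH1_stmt → ∀ (d r : ℕ) (B : Fin r → Fin d → Fin d → ℤ) (k : Fin r → ℤ)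
  (p q : Fin d → ℤ) (m : ℤ), Plu B k p q m → ∀ F : Two B → ℂ, Eig k F →
  (∃ C : ℝ, ∀ g, ‖F g‖ ≤ C) → ∀ (E : Set (Fin d → ℝ)) (H n : ℕ),
    W2 F (Over2 B E) H n ≤ HB.WH (fun u => F (th B p q u)) (HB.Over (M1 B k p q m '' E)) H n

/-- Row SUM: finite sums and uniform limits. -/
def SUM_stmt : Prop := ∀ (d r : ℕ) (B : Fin r → Fin d → Fin d → ℤ) (f : Two B → ℂ)
  (S : Set (Two B)), (∀ ε : ℝ, 0 < ε → ∃ (ι : Type) (_ : Fintype ι) (Fs : ι → Two B → ℂ),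
    (∀ i, (∃ C : ℝ, ∀ g, ‖Fs i g‖ ≤ C) ∧ HB.Sm (A2 (Fs i) S)) ∧
      ∀ g, ‖f g - ∑ i, Fs i g‖ ≤ ε) → HB.Sm (A2 f S)

/-- Row QQ: the estimate of Q1 follows from the estimate with free base point. -/
def QQ_stmt : Prop := ∀ (d r : ℕ) (B : Fin r → Fin d → Fin d → ℤ) (f : Two B → ℂ),
  (∃ C : ℝ, ∀ g, ‖f g‖ ≤ C) → ∀ (E : Set (Fin d → ℝ)) (x₀ : Two B) (N H : ℕ),
  AE2 f E x₀ N H ≤ A2 f (Over2 B E) N H

/-- Row PHI: the homomorphism to the Heisenberg group. -/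
def PHI_stmt : Prop := ∀ (d r : ℕ) (B : Fin r → Fin d → Fin d → ℤ) (k : Fin r → ℤ)
  (p q : Fin d → ℤ) (m : ℤ), Plu B k p q m → ∃ Φ : Two B →* HB.Heis, Continuous Φ ∧
    (∀ g, ((Φ g).x, (Φ g).y) = M2 B k p q g.x) ∧ (∀ g ∈ Gam B, Φ g ∈ HB.Gam) ∧
    (∀ z : Fin r → ℝ, Φ ⟨0, z⟩ = ⟨0, 0, 2 * m * kz k z⟩) ∧
    (∀ (x : Fin d → ℝ) (c : ℝ), ∃ z, (Φ ⟨x, z⟩).z = c) ∧ Function.Surjective Φ

/-- Row CNV: the estimate of Q1 passes to the Heisenberg group. -/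
def CNV_stmt : Prop := PHI_stmt → INT_stmt → ∀ (d r : ℕ) (B : Fin r → Fin d → Fin d → ℤ)
  (k : Fin r → ℤ) (p q : Fin d → ℤ) (m : ℤ), Plu B k p q m → Rk2 B k → ∀ E : Set (Fin d → ℝ),
  (∀ f : Two B → ℂ, Reg (Gam B) f → Sp2 f → ∀ x₀ : Two B, HB.Sm (AE2 f E x₀)) →
  Q1V (M2 B k p q '' E)

/-- Row NV: see `HB.rowN`. -/
def NV_stmt : Prop := ∀ E : Set (ℝ × ℝ), Q1V E → ∀ p q r s : ℤ, p * s - q * r = 1 →
  Q1V {v | ∃ u ∈ E, v = (p * u.1 + q * u.2, r * u.1 + s * u.2)}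

/-- Row LV: see `HB.rowL`. -/
def LV_stmt : Prop := ∀ E : Set (ℝ × ℝ), Q1V E → ¬ HB.LinFree E → HB.U1

/-- Row MV: see `HB.rowM`. -/
def MV_stmt : Prop := ∀ E : Set (ℝ × ℝ), IsCompact E → Q1V E → ¬ HB.QuadNull E → HB.M2

/-- Row CG: the conditions. -/
def CG_stmt : Prop := ∀ (d r : ℕ) (B : Fin r → Fin d → Fin d → ℤ) (k : Fin r → ℤ)
  (M : (Fin d → ℝ) → ℝ × ℝ) (κ : ℚ), κ ≠ 0 →
  (∀ x y, (M x).1 * (M y).2 - (M x).2 * (M y).1 = κ * om B k x y) →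
  (∀ q : Fin d → ℤ, ∃ a b : ℚ, M (ic q) = ((a : ℝ), (b : ℝ))) →
  (∀ a b : ℚ, ∃ N : ℕ, 1 ≤ N ∧ ∃ q : Fin d → ℤ, M (ic q) = ((N : ℝ) * a, (N : ℝ) * b)) →
  ∀ E : Set (Fin d → ℝ), (LF B k E ↔ HB.LinFree (M '' E)) ∧ (QN B k E ↔ HB.QuadNull (M '' E))

/-- Row CI: the two instances. -/
def CI_stmt : Prop := CG_stmt → ∀ (d r : ℕ) (B : Fin r → Fin d → Fin d → ℤ) (k : Fin r → ℤ)
  (p q : Fin d → ℤ) (m : ℤ), Plu B k p q m → ∀ E : Set (Fin d → ℝ),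
  ((LF B k E ↔ HB.LinFree (M1 B k p q m '' E)) ∧ (QN B k E ↔ HB.QuadNull (M1 B k p q m '' E))) ∧
  ((LF B k E ↔ HB.LinFree (M2 B k p q '' E)) ∧ (QN B k E ↔ HB.QuadNull (M2 B k p q '' E)))

end

end Pool.Agent.TS2
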