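import Mathlib
import Pool.Agent.Lib.TS2.Defs
import Pool.Agent.Lib.MP_663568_nt_h86.FFourier

/-!
# Two-step nilpotent groups, row VRT: functions with one vertical frequency (helper60)
-/

set_option autoImplicit false
open Finset MeasureTheory

namespace Pool.Agent.TS2

open Pool.Agent.Lib.MP_663568_nt Pool.Agent.Lib.MP_663568_nt.Katai
  Pool.Agent.Lib.MP_663568_nt.Nul Pool.Agent.Lib.MP_663568_nt.Fib

namespace VRTx

variable {d r : ℕ} {B : Fin r → Fin d → Fin d → ℤ}

/-- The central circles. -/
def cen (B : Fin r → Fin d → Fin d → ℤ) (c : Fin r) (t : ℝ) : Two B := ⟨0, Pi.single c t⟩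

lemma cen_oneP (c : Fin r) : IsOneP (cen B c) := by
  constructor
  · refine Two.continuous_mk continuous_const (continuous_pi fun i => ?_)
    by_cases h : i = c
    · subst h
      simpa using (continuous_id' : Continuous fun a : ℝ => a)
    · simpa [h] using continuous_const
  · intro a b
    apply Two.ext
    · simp [cen]
    · simp [cen, Pi.single_add]

lemma central (g : Two B) (z : Fin r → ℝ) : (⟨0, z⟩ : Two B) * g = g * ⟨0, z⟩ := by
  apply Two.ext
  · simp
  · simp [add_comm]

lemma cen_mul (c : Fin r) (t : ℝ) (g : Two B) : cen B c t * g = g * ⟨0, Pi.single c t⟩ :=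
  central g _

lemma one_mem (c : Fin r) : (⟨0, Pi.single c 1⟩ : Two B) ∈ Gam B := by
  refine ⟨0, Pi.single c 1, ?_⟩
  apply Two.ext
  · funext i
    simp
  · funext i
    by_cases h : i = c
    · subst h
      simp
    · simp [h]

lemma continuous_kz (k : Fin r → ℤ) : Continuous (kz k) := by
  unfold kz
  exact continuous_finsetSum _ fun c _ => continuous_const.mul (continuous_apply c)

/-- the components have no frequencies of another rank -/
lemma sp2_Pop {F : Two B → ℂ} (hF : Reg (Gam B) F) (hS : Sp2 F) (c : Fin r) (m : ℤ) :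
    Sp2 (Pop (cen B c) m F) := by
  intro k hk g
  have hFc : Continuous F := hF.1
  have hec : Continuous (cen B c) := (cen_oneP c).1
  have hee : Continuous ee := continuous_ee
  have hkz := continuous_kz k
  have hz : Continuous fun z : Fin r → ℝ => (⟨0, z⟩ : Two B) :=
    Two.continuous_mk continuous_const continuous_id
  set Φ : (Fin r → ℝ) → ℝ → ℂ := fun z t => ee (-(kz k z)) * (ee (-(m * t)) *
    F (cen B c t * (g * ⟨0, z⟩))) with hΦ
  have hΦc : Continuous (Function.uncurry Φ) := by
    simp only [hΦ, Function.uncurry_def]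
    fun_prop
  have hint : Integrable (Function.uncurry Φ)
      ((volume.restrict (Set.Icc (0 : Fin r → ℝ) 1)).prod (volume.restrict (Set.Ioc (0 : ℝ) 1))) := by
    rw [Measure.prod_restrict]
    have h1 : IntegrableOn (Function.uncurry Φ) (Set.Icc (0 : Fin r → ℝ) 1 ×ˢ Set.Icc (0 : ℝ) 1)
        (volume.prod volume) :=
      hΦc.continuousOn.integrableOn_compact (isCompact_Icc.prod isCompact_Icc)
    exact h1.mono_set (Set.prod_mono le_rfl Set.Ioc_subset_Icc_self)
  have e1 : PInt k (Pop (cen B c) m F) g = ∫ z in Set.Icc (0 : Fin r → ℝ) 1,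
      ∫ t in Set.Ioc (0 : ℝ) 1, Φ z t := by
    unfold PInt Pop
    refine integral_congr_ae (Filter.Eventually.of_forall fun z => ?_)
    simp only [hΦ]
    rw [intervalIntegral.integral_of_le zero_le_one, integral_const_mul]
  have e2 : ∫ z in Set.Icc (0 : Fin r → ℝ) 1, ∫ t in Set.Ioc (0 : ℝ) 1, Φ z t =
      ∫ t in Set.Ioc (0 : ℝ) 1, ∫ z in Set.Icc (0 : Fin r → ℝ) 1, Φ z t :=
    integral_integral_swap hint
  have e3 : ∀ t, ∫ z in Set.Icc (0 : Fin r → ℝ) 1, Φ z t = 0 := by
    intro t
    have h1 : ∀ z, Φ z t = ee (-(m * t)) * (ee (-(kz k z)) * F ((cen B c t * g) * ⟨0, z⟩)) := by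
      intro z
      simp only [hΦ]
      rw [mul_assoc]
      ring
    simp only [h1]
    rw [integral_const_mul]
    have h2 := hS k hk (cen B c t * g)
    unfold PInt at h2
    rw [h2, mul_zero]
  rw [e1, e2]
  simp only [e3, integral_zero]

lemma verK_of {F : Two B → ℂ} (hF : Reg (Gam B) F) {k : Fin r → ℤ}
    (hk : ∀ c, Freq (cen B c) (k c) F) : VerK k F := by
  refine ⟨hF, fun g z => ?_⟩
  have key : ∀ s : Finset (Fin r), F (g * ⟨0, fun c => if c ∈ s then z c else 0⟩) =
      ee (∑ c ∈ s, (k c : ℝ) * z c) * F g := by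
    intro s
    induction s using Finset.induction_on with
    | empty =>
      have h1 : (⟨0, fun c => if c ∈ (∅ : Finset (Fin r)) then z c else 0⟩ : Two B) = 1 := by
        apply Two.ext
        · rfl
        · funext c
          simp
      have h2 : ee 0 = 1 := by
        have := ee_int 0
        simpa using this
      rw [h1, mul_one, Finset.sum_empty, h2, one_mul]
    | insert a s ha ih =>
      have h1 : (⟨0, fun c => if c ∈ insert a s then z c else 0⟩ : Two B) =
          cen B a (z a) * ⟨0, fun c => if c ∈ s then z c else 0⟩ := by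
        apply Two.ext
        · simp [cen]
        · funext c
          simp only [cen, Two.mul_z, bil_zero_left, Pi.add_apply, Pi.zero_apply, add_zero,
            Finset.mem_insert]
          by_cases hc : c = a
          · subst hc
            simp [ha]
          · simp [hc]
      have h2 : g * (cen B a (z a) * ⟨0, fun c => if c ∈ s then z c else 0⟩) =
          cen B a (z a) * (g * ⟨0, fun c => if c ∈ s then z c else 0⟩) := by
        have h3 : cen B a (z a) * g = g * cen B a (z a) := cen_mul a (z a) g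
        rw [← mul_assoc, ← mul_assoc, h3]
      rw [h1, h2, hk a, ih, Finset.sum_insert ha, ee_add, mul_assoc]
  have h1 := key Finset.univ
  simpa [kz] using h1

lemma zero_of {F : Two B → ℂ} {k : Fin r → ℤ} (hF : VerK k F) (hS : Sp2 F) (hk : ¬ Rk2 B k) :
    ∀ g, F g = 0 := by
  intro g
  have h1 := hS k hk g
  unfold PInt at h1
  have h2 : ∀ z, ee (-(kz k z)) * F (g * ⟨0, z⟩) = F g := by
    intro z
    rw [hF.2, ← mul_assoc, ← ee_add, neg_add_cancel]
    have := ee_int 0
    simp only [Int.cast_zero] at this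
    rw [this, one_mul]
  simp only [h2] at h1
  rw [setIntegral_const] at h1
  have h3 : (volume : Measure (Fin r → ℝ)).real (Set.Icc (0 : Fin r → ℝ) 1) = 1 := by
    unfold Measure.real
    rw [Real.volume_Icc_pi]
    simp
  rwa [h3, one_smul] at h1

end VRTx

open VRTx

/-- Row VRT. -/
theorem rowVRT : VRT_stmt := by
  classical
  intro hCO d r B f hf hS ε hε
  have hmem : ∀ e ∈ (List.finRange r).map (cen B), ∃ c, e = cen B c := by
    intro e he
    rw [List.mem_map] at he
    obtain ⟨c, -, rfl⟩ := he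
    exact ⟨c, rfl⟩
  obtain ⟨ι, hι, Fs, h1, h2⟩ := fourier_list (Gam B) (hCO d r B) ((List.finRange r).map (cen B))
    (fun e he => by
      obtain ⟨c, rfl⟩ := hmem e he
      exact cen_oneP c)
    (fun F => Reg (Gam B) F ∧ Sp2 F) (fun F hF => hF.1)
    (fun F hF e he x => by
      obtain ⟨c, rfl⟩ := hmem e he
      rw [cen_mul, hF.1.2 _ _ (one_mem c)])
    (fun F _ e he e' he' t t' x => by
      obtain ⟨c, rfl⟩ := hmem e he
      obtain ⟨c', rfl⟩ := hmem e' he'
      have h : cen B c t * cen B c' t' = cen B c' t' * cen B c t := central (cen B c' t') _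
      rw [← mul_assoc, ← mul_assoc, h])
    (fun F hF e he m => by
      obtain ⟨c, rfl⟩ := hmem e he
      exact ⟨reg_Pop _ F hF.1 _ (cen_oneP c).1 m, sp2_Pop hF.1 hF.2 c m⟩)
    (fun F hF a => by
      refine ⟨⟨continuous_const.mul hF.1.1, fun x γ hγ => ?_⟩, fun k hk g => ?_⟩
      · show a * F (x * γ) = a * F x
        rw [hF.1.2 x γ hγ]
      · have h3 := hF.2 k hk g
        unfold PInt at h3 ⊢
        have h4 : ∀ z, ee (-(kz k z)) * (a * F (g * ⟨0, z⟩)) =
            a * (ee (-(kz k z)) * F (g * ⟨0, z⟩)) := fun z => by ring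
        simp only [h4]
        rw [integral_const_mul, h3, mul_zero]) f ⟨hf, hS⟩ ε hε
  have h3 : ∀ i, ∃ k : Fin r → ℤ, VerK k (Fs i) := by
    intro i
    have h4 : ∀ c, ∃ m : ℤ, Freq (cen B c) m (Fs i) := fun c =>
      (h1 i).2 _ (List.mem_map.mpr ⟨c, List.mem_finRange c, rfl⟩)
    choose k hk using h4
    exact ⟨k, verK_of (h1 i).1.1 hk⟩
  refine ⟨{i // ∃ k, Rk2 B k ∧ VerK k (Fs i)}, inferInstance, fun i => Fs i.1, fun i => i.2,
    fun g => ?_⟩
  have h5 : ∑ i : {i // ∃ k, Rk2 B k ∧ VerK k (Fs i)}, Fs i.1 g = ∑ i, Fs i g := by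
    rw [← Finset.sum_subtype (Finset.univ.filter fun i => ∃ k, Rk2 B k ∧ VerK k (Fs i))
      (fun i => by simp) (fun i => Fs i g)]
    refine Finset.sum_filter_of_ne fun i _ hi => ?_
    by_contra hcon
    obtain ⟨k, hk⟩ := h3 i
    exact hi (zero_of hk (h1 i).1.2 (fun h => hcon ⟨k, h, hk⟩) g)
  rw [h5]
  exact h2 g

end Pool.Agent.TS2
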