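import Pool.Agent.Lib.TS2.Defs
import Pool.Agent.Lib.HB.Basic

/-!
# Row ALG (MP_663568_nt): eigenfunctions come from the Heisenberg group.  helper3
-/

set_option autoImplicit false
open Finset MeasureTheory

namespace Pool.Agent.TS2

open Pool.Agent.Lib.MP_663568_nt Pool.Agent.Lib.MP_663568_nt.Katai
  Pool.Agent.Lib.MP_663568_nt.Nul Pool.Agent.Lib.MP_663568_nt.Fib

namespace ALGx

variable {d r : ℕ} {B : Fin r → Fin d → Fin d → ℤ} {k : Fin r → ℤ}

lemma om_kz (x y : Fin d → ℝ) : om B k x y = kz k (bil B x y - bil B y x) := rfl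

lemma om_neg (x y : Fin d → ℝ) : om B k x y = -om B k y x := by
  unfold om
  rw [← sum_neg_distrib]
  exact sum_congr rfl fun c _ => by ring

lemma om_sub (x x' y : Fin d → ℝ) : om B k (x - x') y = om B k x y - om B k x' y := by
  have h1 : bil B (x - x') y = bil B x y - bil B x' y := by
    rw [sub_eq_add_neg, bil_add_left, bil_neg_left, sub_eq_add_neg]
  have h2 : bil B y (x - x') = bil B y x - bil B y x' := by
    rw [sub_eq_add_neg, bil_add_right, bil_neg_right, sub_eq_add_neg]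
  unfold om
  rw [h1, h2, ← sum_sub_distrib]
  exact sum_congr rfl fun c _ => by simp only [Pi.sub_apply]; ring

lemma om_add (x x' y : Fin d → ℝ) : om B k (x + x') y = om B k x y + om B k x' y := by
  unfold om
  rw [bil_add_left, bil_add_right, ← sum_add_distrib]
  exact sum_congr rfl fun c _ => by simp only [Pi.add_apply]; ring

lemma om_smul (s : ℝ) (x y : Fin d → ℝ) : om B k (s • x) y = s * om B k x y := by
  unfold om
  rw [bil_smul_left, bil_smul_right, mul_sum]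
  exact sum_congr rfl fun c _ => by simp only [Pi.smul_apply, smul_eq_mul]; ring

lemma kz_smul (c : ℝ) (z : Fin r → ℝ) : kz k (c • z) = c * kz k z := by
  unfold kz
  rw [mul_sum]
  exact sum_congr rfl fun c _ => by simp only [Pi.smul_apply, smul_eq_mul]; ring

lemma central (g : Two B) (z : Fin r → ℝ) : (⟨0, z⟩ : Two B) * g = g * ⟨0, z⟩ := by
  apply Two.ext
  · simp
  · simp [add_comm]

lemma swap (a w : Two B) : a * w = w * a * ⟨0, bil B a.x w.x - bil B w.x a.x⟩ := by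
  apply Two.ext
  · simp [add_comm]
  · simp only [Two.mul_z, Two.mul_x, bil_zero_right]
    abel

/-- An element over the radical can be removed from the middle. -/
lemma eig_mid {F : Two B → ℂ} (hF : VerK k F) {w : Two B} (hw : ∀ y, om B k w.x y = 0) {lam : ℝ}
    (hl : ∀ g, F (w * g) = ee lam * F g) (a g : Two B) : F (a * w * g) = ee lam * F (a * g) := by
  have h1 : a * w * g = w * (a * g) * ⟨0, bil B a.x w.x - bil B w.x a.x⟩ := by
    rw [swap a w, mul_assoc (w * a), central, ← mul_assoc, mul_assoc w a g]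
  rw [h1, hF.2, ← om_kz, om_neg, hw, neg_zero, hl]
  have h2 : ee 0 = 1 := by
    have := ee_int 0
    simpa using this
  rw [h2, one_mul]

/-- `x - s p - t q` is in the radical. -/
lemma radical {p q : Fin d → ℤ} {m : ℤ} (hP : Plu B k p q m) (x y : Fin d → ℝ) :
    om B k (x - ((M1 B k p q m x).1 • ic p + (M1 B k p q m x).2 • ic q)) y = 0 := by
  have hm : (m : ℝ) ≠ 0 := by exact_mod_cast hP.1
  rw [om_sub, om_add, om_smul, om_smul]
  have h1 := hP.2.2 x y
  have h2 := om_neg (B := B) (k := k) x (ic q)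
  unfold M1
  simp only
  rw [h2]
  have h3 : om B k x y = (om B k (ic p) x * om B k (ic q) y -
      om B k (ic p) y * om B k (ic q) x) / m := by
    rw [eq_div_iff hm, ← h1]
    ring
  rw [h3]
  field_simp
  ring

end ALGx

open ALGx in
theorem rowALG : ALG_stmt := by
  intro hT d r B k p q m hP F hE hbd E H n
  obtain ⟨C, hC⟩ := hbd
  have hm : (m : ℝ) ≠ 0 := by exact_mod_cast hP.1
  have hV : VerK k F := hE.1
  -- the homomorphism
  obtain ⟨Θ, hΘ⟩ : ∃ Θ : HB.Heis →* Two B, ∀ u, Θ u = th B p q u :=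
    ⟨MonoidHom.mk' (th B p q) (hT d r B p q), fun u => rfl⟩
  refine Real.iSup_le (fun v => ?_) (HB.WH_nonneg _ _ _ _)
  obtain ⟨⟨g, y⟩, hg⟩ := v
  have hg' : g.x ∈ E := hg
  show ‖∑ h ∈ Icc 1 H, muC (n + h) * F (g ^ h * y)‖ ≤ _
  -- decomposition
  have dec : ∀ g : Two B, ∃ lam : ℝ, ∀ a b : Two B,
      F (a * g * b) = ee lam * F (a * th B p q ⟨(M1 B k p q m g.x).1, (M1 B k p q m g.x).2, 0⟩ * b) := by
    intro g
    obtain ⟨th0, hth⟩ : ∃ th0 : Two B, th0 =
      th B p q ⟨(M1 B k p q m g.x).1, (M1 B k p q m g.x).2, 0⟩ := ⟨_, rfl⟩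
    have hx : th0.x = (M1 B k p q m g.x).1 • ic p + (M1 B k p q m g.x).2 • ic q := by
      rw [hth]
      rfl
    have hw : ∀ y, om B k (th0⁻¹ * g).x y = 0 := by
      intro y
      rw [Two.mul_x, Two.inv_x, hx]
      have := radical hP g.x y
      rwa [sub_eq_neg_add] at this
    obtain ⟨lam, hl⟩ := hE.2 (th0⁻¹ * g) hw
    refine ⟨lam, fun a b => ?_⟩
    rw [← hth]
    have h1 := eig_mid hV hw hl (a * th0) b
    rw [← h1]
    congr 1
    group
  obtain ⟨lam, hl⟩ := dec g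
  obtain ⟨mu, hmu⟩ := dec y
  obtain ⟨s, hs⟩ : ∃ s, s = (M1 B k p q m g.x).1 := ⟨_, rfl⟩
  obtain ⟨t, ht⟩ : ∃ t, t = (M1 B k p q m g.x).2 := ⟨_, rfl⟩
  rw [← hs, ← ht, ← hΘ] at hl
  obtain ⟨y', hy'⟩ : ∃ y' : HB.Heis, y' = ⟨(M1 B k p q m y.x).1, (M1 B k p q m y.x).2, 0⟩ := ⟨_, rfl⟩
  rw [← hy', ← hΘ] at hmu
  have hpow : ∀ (h : ℕ) (b : Two B), F (g ^ h * b) = ee (h * lam) * F (Θ ⟨s, t, 0⟩ ^ h * b) := by
    intro h
    induction h with
    | zero =>
      intro b
      have h2 : ee 0 = 1 := by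
        have := ee_int 0
        simpa using this
      simp [h2]
    | succ h ih =>
      intro b
      rw [pow_succ, mul_assoc, ih, ← mul_assoc, hl, ← mul_assoc, ← ee_add, pow_succ]
      congr 2
      push_cast
      ring
  have hcen : ∀ (v : HB.Heis) (c : ℝ), F (Θ (v * ⟨0, 0, c⟩)) = ee (c * m) * F (Θ v) := by
    intro v c
    have h1 : Θ ⟨0, 0, c⟩ = ⟨0, c • (bil B (ic p) (ic q) - bil B (ic q) (ic p))⟩ := by
      rw [hΘ]
      unfold th
      apply Two.ext <;> simp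
    rw [map_mul, h1, hV.2, kz_smul, ← om_kz, hP.2.1]
  obtain ⟨u, hu⟩ : ∃ u : HB.Heis, u = ⟨s, t, lam / m⟩ := ⟨_, rfl⟩
  have hkey : ∀ h : ℕ, F (g ^ h * y) = ee mu * F (Θ (u ^ h * y')) := by
    intro h
    have h1 : u ^ h * y' = (⟨s, t, 0⟩ : HB.Heis) ^ h * y' * ⟨0, 0, h * (lam / m)⟩ := by
      rw [hu]
      ext
      · simp [HB.Heis.pow_x]
      · simp [HB.Heis.pow_y]
      · simp only [HB.Heis.mul_z, HB.Heis.pow_z, HB.Heis.mul_x, HB.Heis.pow_x]
        ring
    have h2 : (h : ℝ) * (lam / m) * m = h * lam := by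
      field_simp
    rw [h1, hcen, h2, hpow, map_mul, map_pow]
    have h3 := hmu (Θ ⟨s, t, 0⟩ ^ h) 1
    rw [mul_one, mul_one] at h3
    rw [h3]
    ring
  have hsum : ∑ h ∈ Icc 1 H, muC (n + h) * F (g ^ h * y) =
      ee mu * ∑ h ∈ Icc 1 H, muC (n + h) * F (th B p q (u ^ h * y')) := by
    rw [mul_sum]
    refine sum_congr rfl fun h _ => ?_
    rw [hkey, hΘ]
    ring
  rw [hsum, norm_mul, norm_ee, one_mul]
  have hmem : u ∈ HB.Over (M1 B k p q m '' E) := by
    refine ⟨g.x, hg', ?_⟩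
    rw [hu]
    exact Prod.ext hs.symm ht.symm
  exact HB.le_WH (F := fun u => F (th B p q u)) (fun g => hC _) hmem y' H n

end Pool.Agent.TS2
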