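import Mathlib
import Pool.Agent.Lib.TS2.Defs
import Pool.Agent.Lib.HB.Final

/-!
# Two-step groups, vertical frequencies of rank two (MP_663568_nt): assembly.  (helper95)
-/

set_option autoImplicit false
open Finset MeasureTheory

namespace Pool.Agent.TS2

open Pool.Agent.Lib.MP_663568_nt Pool.Agent.Lib.MP_663568_nt.Katai
  Pool.Agent.Lib.MP_663568_nt.Nul Pool.Agent.Lib.MP_663568_nt.Fib

noncomputable section

variable {d r : ℕ} {B : Fin r → Fin d → Fin d → ℤ}

/-- The first condition. -/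
def LFa (B : Fin r → Fin d → Fin d → ℤ) (E : Set (Fin d → ℝ)) : Prop :=
  ∀ k : Fin r → ℤ, Rk2 B k → LF B k E

/-- The second condition. -/
def QNa (B : Fin r → Fin d → Fin d → ℤ) (E : Set (Fin d → ℝ)) : Prop :=
  ∀ k : Fin r → ℤ, Rk2 B k → QN B k E

/-- The condition of the theorem. -/
def Cond2 (B : Fin r → Fin d → Fin d → ℤ) (E : Set (Fin d → ℝ)) : Prop :=
  (LFa B E ∨ HB.U1) ∧ (QNa B E ∨ HB.M2)

lemma continuous_om (k : Fin r → ℤ) {α : Type*} [TopologicalSpace α] {f g : α → Fin d → ℝ}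
    (hf : Continuous f) (hg : Continuous g) : Continuous fun a => om B k (f a) (g a) := by
  unfold om
  refine continuous_finsetSum _ fun c _ => continuous_const.mul ?_
  exact ((continuous_apply c).comp (continuous_bil B hf hg)).sub
    ((continuous_apply c).comp (continuous_bil B hg hf))

lemma continuous_M1 (k : Fin r → ℤ) (p q : Fin d → ℤ) (m : ℤ) : Continuous (M1 B k p q m) := by
  unfold M1
  exact ((continuous_om k continuous_id continuous_const).div_const _).prodMk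
    ((continuous_om k continuous_const continuous_id).div_const _)

lemma continuous_M2 (k : Fin r → ℤ) (p q : Fin d → ℤ) : Continuous (M2 B k p q) := by
  unfold M2
  exact (continuous_const.mul (continuous_om k continuous_const continuous_id)).prodMk
    (continuous_om k continuous_const continuous_id)

lemma reg_bound2 (hCO : CO_stmt) {F : Two B → ℂ} (hF : Reg (Gam B) F) :
    ∃ C : ℝ, ∀ g, ‖F g‖ ≤ C := by
  obtain ⟨C, -, hC⟩ := Pool.Agent.Lib.MP_663568_nt.Fib.M1.exists_sup (Gam B) (hCO d r B) F hF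
  exact ⟨C, hC⟩

lemma W2_nonneg (F : Two B → ℂ) (S : Set (Two B)) (H n : ℕ) : 0 ≤ W2 F S H n :=
  Real.iSup_nonneg fun _ => norm_nonneg _

lemma W2_mono {F : Two B → ℂ} {C : ℝ} (hC : ∀ g, ‖F g‖ ≤ C) {S S' : Set (Two B)} (hS : S ⊆ S')
    (H n : ℕ) : W2 F S H n ≤ W2 F S' H n := by
  refine Real.iSup_le (fun v => ?_) (W2_nonneg _ _ _ _)
  refine le_ciSup (f := fun v : {v : Two B × Two B // v.1 ∈ S'} =>
    ‖∑ h ∈ Icc 1 H, muC (n + h) * F (v.1.1 ^ h * v.1.2)‖) ⟨H * C, ?_⟩ ⟨v.1, hS v.2⟩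
  rintro _ ⟨v, rfl⟩
  exact HB.norm_sum_mu_le (u := fun h => F (v.1.1 ^ h * v.1.2)) (fun h => hC _) H n

lemma A2_mono {F : Two B → ℂ} {C : ℝ} (hC : ∀ g, ‖F g‖ ≤ C) {S S' : Set (Two B)} (hS : S ⊆ S')
    (N H : ℕ) : A2 F S N H ≤ A2 F S' N H :=
  sum_le_sum fun n _ => mul_le_mul_of_nonneg_left (W2_mono hC hS _ _) (by positivity)

theorem J_all : HB.J_stmt := HB.rowJ HB.rowA HB.I_all

/-- An eigenfunction. -/
lemma sm_eig (hCO : CO_stmt) (hT1 : TH1_stmt) (hT2 : TH2_stmt) (hALG : ALG_stmt) (hCG : CG_stmt)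
    (hCI : CI_stmt) {k : Fin r → ℤ} (hk : Rk2 B k) {p q : Fin d → ℤ} {m : ℤ}
    (hP : Plu B k p q m) {F : Two B → ℂ} (hF : Eig k F) {E : Set (Fin d → ℝ)} (hE : IsCompact E)
    (hC : Cond2 B E) : HB.Sm (A2 F (Over2 B E)) := by
  have hV := hT2 hT1 d r B k p q m hP.2.1 F hF.1
  have hc : HB.Cond (M1 B k p q m '' E) := by
    obtain ⟨h1, h2⟩ := (hCI hCG d r B k p q m hP E).1
    refine ⟨?_, ?_⟩
    · rcases hC.1 with h | h
      · exact Or.inl (h1.1 (h k hk))
      · exact Or.inr h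
    · rcases hC.2 with h | h
      · exact Or.inl (h2.1 (h k hk))
      · exact Or.inr h
  have hJ := J_all m _ hP.1 hV (M1 B k p q m '' E) (hE.image (continuous_M1 k p q m)) hc
  refine HB.sm_mono (fun N H => ?_) hJ
  exact sum_le_sum fun n _ => mul_le_mul_of_nonneg_left
    (hALG hT1 d r B k p q m hP F hF (reg_bound2 hCO hF.1.1) E H n) (by positivity)

/-- One frequency. -/
lemma sm_ver (hCO : CO_stmt) (hPLK : PLK_stmt) (hRAD : RAD_stmt) (hT1 : TH1_stmt) (hT2 : TH2_stmt)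
    (hALG : ALG_stmt) (hSUM : SUM_stmt) (hCG : CG_stmt) (hCI : CI_stmt) {k : Fin r → ℤ}
    (hk : Rk2 B k) {F : Two B → ℂ} (hF : VerK k F) {E : Set (Fin d → ℝ)} (hE : IsCompact E)
    (hC : Cond2 B E) : HB.Sm (A2 F (Over2 B E)) := by
  obtain ⟨p, q, m, hP⟩ := hPLK d r B k hk
  refine hSUM d r B F _ fun ε hε => ?_
  obtain ⟨ι, hι, Fs, h1, h2⟩ := hRAD hCO d r B k p q m hP F hF ε hε
  exact ⟨ι, hι, Fs, fun i => ⟨reg_bound2 hCO (h1 i).1.1,
    sm_eig hCO hT1 hT2 hALG hCG hCI hk hP (h1 i) hE hC⟩, h2⟩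

/-- All functions whose vertical frequencies have rank two. -/
lemma sm_all (hCO : CO_stmt) (hPLK : PLK_stmt) (hVRT : VRT_stmt) (hRAD : RAD_stmt)
    (hT1 : TH1_stmt) (hT2 : TH2_stmt) (hALG : ALG_stmt) (hSUM : SUM_stmt) (hCG : CG_stmt)
    (hCI : CI_stmt) {f : Two B → ℂ} (hf : Reg (Gam B) f) (hs : Sp2 f) {E : Set (Fin d → ℝ)}
    (hE : IsCompact E) (hC : Cond2 B E) : HB.Sm (A2 f (Over2 B E)) := by
  refine hSUM d r B f _ fun ε hε => ?_
  obtain ⟨ι, hι, Fs, h1, h2⟩ := hVRT hCO d r B f hf hs ε hε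
  refine ⟨ι, hι, Fs, fun i => ?_, h2⟩
  obtain ⟨k, hk, hV⟩ := h1 i
  exact ⟨reg_bound2 hCO hV.1, sm_ver hCO hPLK hRAD hT1 hT2 hALG hSUM hCG hCI hk hV hE hC⟩

/-- The functions on `G ⧸ Γ` as functions on `G`. -/
lemma reg_of2 {f : Two B ⧸ Gam B → ℂ} (hf : Continuous f) :
    Reg (Gam B) (fun g : Two B => f (QuotientGroup.mk g)) :=
  ⟨hf.comp QuotientGroup.continuous_mk, fun x γ hγ => by
    beta_reduce
    rw [QuotientGroup.mk_mul_of_mem x hγ]⟩

lemma exists_desc2 {F : Two B → ℂ} (hF : Reg (Gam B) F) :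
    ∃ f : Two B ⧸ Gam B → ℂ, Continuous f ∧ ∀ g : Two B, f (QuotientGroup.mk g) = F g := by
  refine ⟨fun x => Quotient.liftOn' x F ?_, ?_, fun g => rfl⟩
  · intro a b hab
    have h : a⁻¹ * b ∈ Gam B := QuotientGroup.leftRel_apply.1 hab
    have := hF.2 a _ h
    rw [mul_inv_cancel_left] at this
    exact this.symm
  · exact hF.1.quotient_liftOn' _

/-- The closure of the image of a bounded set. -/
lemma closure_image2 {M : (Fin d → ℝ) → ℝ × ℝ} (hM : Continuous M) {E : Set (Fin d → ℝ)}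
    (hE : Bornology.IsBounded E) : closure (M '' E) = M '' closure E := by
  refine Set.Subset.antisymm ?_ (image_closure_subset_closure_image hM)
  exact closure_minimal (Set.image_mono subset_closure)
    (hE.isCompact_closure.image hM).isClosed

/-- The estimate passes to the closure. -/
lemma q1v_closure {E : Set (ℝ × ℝ)} (h : Q1V E) : Q1V (closure E) := fun f hf x₀ =>
  HB.sm_mono (fun N H => HB.AE_closure_le hf.1 E x₀ N H) (h f hf x₀)

/-- **The theorem.** -/
theorem main (hCO : CO_stmt) (hPLK : PLK_stmt) (hINT : INT_stmt) (hVRT : VRT_stmt)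
    (hRAD : RAD_stmt) (hT1 : TH1_stmt) (hT2 : TH2_stmt) (hALG : ALG_stmt) (hSUM : SUM_stmt)
    (hQQ : QQ_stmt) (hPHI : PHI_stmt) (hCNV : CNV_stmt) (hLV : LV_stmt) (hMV : MV_stmt)
    (hCG : CG_stmt) (hCI : CI_stmt) {E : Set (Fin d → ℝ)} (hE : Bornology.IsBounded E) :
    List.TFAE [∀ f : Two B ⧸ Gam B → ℂ, Continuous f →
        Sp2 (fun g : Two B => f (QuotientGroup.mk g)) →
        ∀ x₀ : Two B, HB.Sm (AE2 (fun g => f (QuotientGroup.mk g)) E x₀),
      ∀ f : Two B ⧸ Gam B → ℂ, Continuous f → Sp2 (fun g : Two B => f (QuotientGroup.mk g)) →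
        HB.Sm (A2 (fun g => f (QuotientGroup.mk g)) (Over2 B E)),
      Cond2 B (closure E)] := by
  have hEc : IsCompact (closure E) := hE.isCompact_closure
  tfae_have 3 → 2 := fun hc f hf hs => by
    obtain ⟨C, hC⟩ := reg_bound2 hCO (reg_of2 hf)
    have hsub : Over2 B E ⊆ Over2 B (closure E) := fun g hg =>
      (subset_closure hg : g.x ∈ closure E)
    exact HB.sm_mono (fun N H => A2_mono hC hsub N H)
      (sm_all hCO hPLK hVRT hRAD hT1 hT2 hALG hSUM hCG hCI (reg_of2 hf) hs hEc hc)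
  tfae_have 2 → 1 := fun h f hf hs x₀ =>
    HB.sm_mono (fun N H => hQQ d r B _ (reg_bound2 hCO (reg_of2 hf)) E x₀ N H) (h f hf hs)
  tfae_have 1 → 3 := by
    intro h
    have hQ : ∀ k : Fin r → ℤ, Rk2 B k → ∀ (p q : Fin d → ℤ) (m : ℤ), Plu B k p q m →
        Q1V (M2 B k p q '' closure E) := by
      intro k hk p q m hP
      rw [← closure_image2 (continuous_M2 k p q) hE]
      refine q1v_closure (hCNV hPHI hINT d r B k p q m hP hk E fun F hF hs x₀ => ?_)
      obtain ⟨f, hf, hfF⟩ := exists_desc2 hF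
      have e : (fun g : Two B => f (QuotientGroup.mk g)) = F := funext hfF
      have h1 := h f hf (by rw [e]; exact hs) x₀
      rw [e] at h1
      exact h1
    refine ⟨?_, ?_⟩
    · by_cases hL : LFa B (closure E)
      · exact Or.inl hL
      · unfold LFa at hL
        push Not at hL
        obtain ⟨k, hk, hL⟩ := hL
        obtain ⟨p, q, m, hP⟩ := hPLK d r B k hk
        exact Or.inr (hLV _ (hQ k hk p q m hP) fun h2 =>
          hL (((hCI hCG d r B k p q m hP (closure E)).2.1).2 h2))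
    · by_cases hL : QNa B (closure E)
      · exact Or.inl hL
      · unfold QNa at hL
        push Not at hL
        obtain ⟨k, hk, hL⟩ := hL
        obtain ⟨p, q, m, hP⟩ := hPLK d r B k hk
        exact Or.inr (hMV _ (hEc.image (continuous_M2 k p q)) (hQ k hk p q m hP) fun h2 =>
          hL (((hCI hCG d r B k p q m hP (closure E)).2.2).2 h2))
  tfae_finish

end

end Pool.Agent.TS2
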