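import Mathlib
import Pool.Agent.Lib.TS2.Defs

/-!
Row CG (MP_663568_nt, two-step groups): the conditions.  (helper44)
-/

set_option autoImplicit false
open Finset MeasureTheory

namespace Pool.Agent.TS2

namespace CGx

lemma null_mul {c : ℝ} (hc : c ≠ 0) {S : Set ℝ} (h : volume S = 0) :
    volume ((c * ·) ⁻¹' S) = 0 := by
  rw [Real.volume_preimage_mul_left hc, h, mul_zero]

lemma null_aff {c e : ℝ} (hc : c ≠ 0) {S : Set ℝ} (h : volume S = 0) :
    volume ((fun y : ℝ => c * (y + e)) ⁻¹' S) = 0 := by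
  have h1 := null_mul hc h
  have h2 := measure_preimage_add_right (volume : Measure ℝ) e ((c * ·) ⁻¹' S)
  rw [h1] at h2
  exact h2

lemma sq_pos {a b : ℝ} (h : a ≠ 0 ∨ b ≠ 0) : 0 < a ^ 2 + b ^ 2 := by
  rcases h with h | h
  · have := sq_nonneg b
    positivity
  · have := sq_nonneg a
    positivity

end CGx

open CGx

theorem rowCG : CG_stmt := by
  intro d r B k M κ hκ hM hq hN E
  have hκ' : (κ : ℝ) ≠ 0 := by exact_mod_cast hκ
  refine ⟨⟨?_, ?_⟩, ⟨?_, ?_⟩⟩
  · -- LF to LinFree
    rintro hL a b hab t ⟨x, hx, hMx⟩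
    obtain ⟨N, hN1, q, hMq⟩ := hN a b
    obtain ⟨N', hN1', q', hMq'⟩ := hN (-b) a
    have hab' : (a : ℝ) ≠ 0 ∨ (b : ℝ) ≠ 0 := by
      rcases hab with h | h
      · left
        exact_mod_cast h
      · right
        exact_mod_cast h
    have hpos := sq_pos hab'
    have h0 : om B k x (ic q) = 0 := by
      have h1 := hM x (ic q)
      rw [hMx, hMq] at h1
      have h2 : (κ : ℝ) * om B k x (ic q) = 0 := by
        rw [← h1]
        ring
      exact (mul_eq_zero.1 h2).resolve_left hκ'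
    refine hL x hx q ⟨ic q', fun h2 => ?_⟩ h0
    have h1 := hM (ic q') (ic q)
    rw [hMq, hMq', h2, mul_zero] at h1
    push_cast at h1
    have h3 : (N : ℝ) * N' * ((a : ℝ) ^ 2 + b ^ 2) = 0 := by linarith
    have h4 : (0 : ℝ) < N := by exact_mod_cast hN1
    have h5 : (0 : ℝ) < N' := by exact_mod_cast hN1'
    have h6 : 0 < (N : ℝ) * N' * ((a : ℝ) ^ 2 + b ^ 2) := by positivity
    exact h6.ne' h3
  · -- LinFree to LF
    rintro hL x hx q ⟨y, hy⟩ h0
    obtain ⟨a, b, hMq⟩ := hq q
    have h1 := hM x (ic q)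
    have h2 := hM y (ic q)
    rw [hMq, h0, mul_zero] at h1
    rw [hMq] at h2
    have hab : a ≠ 0 ∨ b ≠ 0 := by
      by_contra h
      push Not at h
      rw [h.1, h.2] at h2
      simp only [Rat.cast_zero, mul_zero, sub_zero] at h2
      rcases mul_eq_zero.1 h2.symm with h3 | h3
      · exact hκ' h3
      · exact hy h3
    have hab' : (a : ℝ) ≠ 0 ∨ (b : ℝ) ≠ 0 := by
      rcases hab with h | h
      · left
        exact_mod_cast h
      · right
        exact_mod_cast h
    have hpos := sq_pos hab'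
    simp only at h1
    refine hL a b hab (((M x).1 * a + (M x).2 * b) / ((a : ℝ) ^ 2 + b ^ 2)) ⟨x, hx, ?_⟩
    refine Prod.ext ?_ ?_
    · simp only
      field_simp
      linear_combination (b : ℝ) * h1
    · simp only
      field_simp
      linear_combination (-(a : ℝ)) * h1
  · -- QN to QuadNull
    intro hQ P Q a b hD
    obtain ⟨N1, hN1, q1, hM1⟩ := hN a b
    obtain ⟨N2, hN2, q2, hM2⟩ := hN P Q
    have hN1' : (N1 : ℚ) ≠ 0 := by exact_mod_cast (by omega : N1 ≠ 0)
    have hN2' : (N2 : ℝ) ≠ 0 := by exact_mod_cast (by omega : N2 ≠ 0)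
    have hD' : ((P : ℝ) * b - Q * a) ≠ 0 := by exact_mod_cast hD
    have hs : (N1 : ℚ) * (P * b - Q * a) / κ ≠ 0 := div_ne_zero (mul_ne_zero hN1' hD) hκ
    have h1 := hQ q1 q2 _ hs
    have hc : -((N2 : ℝ) * (P * b - Q * a)) / κ ≠ 0 :=
      div_ne_zero (neg_ne_zero.2 (mul_ne_zero hN2' hD')) hκ'
    refine measure_mono_null ?_ (null_mul hc h1)
    rintro t ⟨x, hx, hMx⟩
    refine ⟨x, hx, ?_, ?_⟩
    · have h2 := hM x (ic q1)
      rw [hMx, hM1] at h2
      push_cast
      rw [eq_div_iff hκ']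
      linear_combination -h2
    · have h2 := hM x (ic q2)
      rw [hMx, hM2] at h2
      simp only
      rw [div_mul_eq_mul_div, div_eq_iff hκ']
      linear_combination h2
  · -- QuadNull to QN
    intro hQ q q' s hs
    have hs' : (s : ℝ) ≠ 0 := by exact_mod_cast hs
    obtain ⟨a, b, hMq⟩ := hq q
    obtain ⟨a', b', hMq'⟩ := hq q'
    by_cases hab : a ≠ 0 ∨ b ≠ 0
    · have hab' : (a : ℝ) ≠ 0 ∨ (b : ℝ) ≠ 0 := by
        rcases hab with h | h
        · left
          exact_mod_cast h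
        · right
          exact_mod_cast h
      have hpos := sq_pos hab'
      have hn : (a : ℝ) ^ 2 + b ^ 2 ≠ 0 := hpos.ne'
      have hnQ : a ^ 2 + b ^ 2 ≠ 0 := by exact_mod_cast hn
      obtain ⟨P, hP⟩ : ∃ P : ℚ, P = κ * s * b / (a ^ 2 + b ^ 2) := ⟨_, rfl⟩
      obtain ⟨Q, hQQ⟩ : ∃ Q : ℚ, Q = -(κ * s * a) / (a ^ 2 + b ^ 2) := ⟨_, rfl⟩
      have hD : P * b - Q * a = κ * s := by
        rw [hP, hQQ]
        field_simp
        ring
      have hT := hQ P Q a b (by rw [hD]; exact mul_ne_zero hκ hs)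
      have hP' : (P : ℝ) = κ * s * b / ((a : ℝ) ^ 2 + b ^ 2) := by
        rw [hP]
        push_cast
        ring
      have hQ' : (Q : ℝ) = -(κ * s * a) / ((a : ℝ) ^ 2 + b ^ 2) := by
        rw [hQQ]
        push_cast
        ring
      -- the points of the set
      have key : ∀ x ∈ E, om B k x (ic q) = s → ∃ t : ℝ,
          ((P : ℝ) + t * a, (Q : ℝ) + t * b) ∈ M '' E ∧
          om B k x (ic q') = (P * b' - Q * a') / κ + (a * b' - b * a') / κ * t := by
        intro x hx h0
        have h1 := hM x (ic q)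
        rw [hMq, h0] at h1
        simp only at h1
        have e1 : (M x).1 = (P : ℝ) + ((M x).1 * a + (M x).2 * b) / ((a : ℝ) ^ 2 + b ^ 2) * a := by
          rw [hP']
          field_simp
          linear_combination (b : ℝ) * h1
        have e2 : (M x).2 = (Q : ℝ) + ((M x).1 * a + (M x).2 * b) / ((a : ℝ) ^ 2 + b ^ 2) * b := by
          rw [hQ']
          field_simp
          linear_combination (-(a : ℝ)) * h1
        refine ⟨((M x).1 * a + (M x).2 * b) / ((a : ℝ) ^ 2 + b ^ 2), ⟨x, hx, ?_⟩, ?_⟩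
        · exact Prod.ext e1 e2
        · have h2 := hM x (ic q')
          rw [hMq'] at h2
          simp only at h2
          generalize ((M x).1 * a + (M x).2 * b) / ((a : ℝ) ^ 2 + b ^ 2) = t at e1 e2 ⊢
          rw [e1, e2] at h2
          field_simp
          linear_combination -h2
      by_cases hβ : ((a : ℝ) * b' - b * a') / κ = 0
      · refine measure_mono_null ?_
          (Real.volume_singleton (a := ((P : ℝ) * b' - Q * a') / κ))
        rintro y ⟨x, hx, h0, rfl⟩
        obtain ⟨t, -, h2⟩ := key x hx h0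
        rw [hβ, zero_mul, add_zero] at h2
        exact h2
      · refine measure_mono_null ?_ (null_aff (c := (((a : ℝ) * b' - b * a') / κ)⁻¹)
          (e := -(((P : ℝ) * b' - Q * a') / κ)) (inv_ne_zero hβ) hT)
        rintro y ⟨x, hx, h0, rfl⟩
        obtain ⟨t, h1, h2⟩ := key x hx h0
        have e3 : (((a : ℝ) * b' - b * a') / κ)⁻¹ *
            (om B k x (ic q') + -(((P : ℝ) * b' - Q * a') / κ)) = t := by
          rw [h2]
          have e4 : ((P : ℝ) * b' - Q * a') / κ + ((a : ℝ) * b' - b * a') / κ * t +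
              -(((P : ℝ) * b' - Q * a') / κ) = ((a : ℝ) * b' - b * a') / κ * t := by ring
          rw [e4, inv_mul_cancel_left₀ hβ]
        show (((a : ℝ) * b' - b * a') / κ)⁻¹ *
            (om B k x (ic q') + -(((P : ℝ) * b' - Q * a') / κ)) ∈
            {t : ℝ | ((P : ℝ) + t * (a : ℝ), (Q : ℝ) + t * (b : ℝ)) ∈ M '' E}
        rw [e3]
        exact h1
    · push Not at hab
      refine measure_mono_null ?_ (measure_empty (μ := (volume : Measure ℝ)))
      rintro y ⟨x, hx, h0, rfl⟩
      have h1 := hM x (ic q)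
      rw [hMq, h0, hab.1, hab.2] at h1
      simp only [Rat.cast_zero, mul_zero, sub_zero] at h1
      exact (mul_ne_zero hκ' hs' h1.symm).elim

end Pool.Agent.TS2
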