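import Mathlib
import Pool.Agent.Lib.TS2.Defs

/-!
# Row CI (MP_663568_nt): the two instances of row CG.  helper93
-/

set_option autoImplicit false
open Finset MeasureTheory

namespace Pool.Agent.TS2

open Pool.Agent.Lib.MP_663568_nt Pool.Agent.Lib.MP_663568_nt.Katai
  Pool.Agent.Lib.MP_663568_nt.Nul Pool.Agent.Lib.MP_663568_nt.Fib

namespace CIx

variable {d r : ℕ}

lemma om_swap (B : Fin r → Fin d → Fin d → ℤ) (k : Fin r → ℤ) (x y : Fin d → ℝ) :
    om B k x y = -om B k y x := by
  simp only [om, ← sum_neg_distrib]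
  exact sum_congr rfl fun c _ => by ring

lemma om_self (B : Fin r → Fin d → Fin d → ℤ) (k : Fin r → ℤ) (x : Fin d → ℝ) :
    om B k x x = 0 := by
  simp [om]

lemma om_add_left (B : Fin r → Fin d → Fin d → ℤ) (k : Fin r → ℤ) (x x' y : Fin d → ℝ) :
    om B k (x + x') y = om B k x y + om B k x' y := by
  simp only [om, bil_add_left, bil_add_right, Pi.add_apply, ← sum_add_distrib]
  exact sum_congr rfl fun c _ => by ring

lemma om_smul_left (B : Fin r → Fin d → Fin d → ℤ) (k : Fin r → ℤ) (s : ℝ) (x y : Fin d → ℝ) :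
    om B k (s • x) y = s * om B k x y := by
  simp only [om, bil_smul_left, bil_smul_right, Pi.smul_apply, smul_eq_mul, mul_sum]
  exact sum_congr rfl fun c _ => by ring

lemma om_add_right (B : Fin r → Fin d → Fin d → ℤ) (k : Fin r → ℤ) (x y y' : Fin d → ℝ) :
    om B k x (y + y') = om B k x y + om B k x y' := by
  rw [om_swap B k x (y + y'), om_add_left, om_swap B k x y, om_swap B k x y']
  ring

lemma om_smul_right (B : Fin r → Fin d → Fin d → ℤ) (k : Fin r → ℤ) (s : ℝ) (x y : Fin d → ℝ) :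
    om B k x (s • y) = s * om B k x y := by
  rw [om_swap B k x (s • y), om_smul_left, om_swap B k x y]
  ring

lemma om_int (B : Fin r → Fin d → Fin d → ℤ) (k : Fin r → ℤ) (x y : Fin d → ℤ) :
    ∃ n : ℤ, om B k (ic x) (ic y) = n := by
  have hb : ∀ x y : Fin d → ℤ, bil B (ic x) (ic y) =
      fun c => ((∑ i, ∑ j, B c i j * (x i * y j) : ℤ) : ℝ) := fun x y => bil_int B x y
  refine ⟨∑ c, k c * ((∑ i, ∑ j, B c i j * (x i * y j)) - ∑ i, ∑ j, B c i j * (y i * x j)), ?_⟩
  simp only [om, hb]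
  push_cast
  rfl

/-- The integral combination. -/
def cmb (p q : Fin d → ℤ) (a b : ℤ) : Fin d → ℤ := fun i => a * p i + b * q i

lemma ic_cmb (p q : Fin d → ℤ) (a b : ℤ) :
    ic (cmb p q a b) = (a : ℝ) • ic p + (b : ℝ) • ic q := by
  funext i
  simp [ic, cmb]

lemma om_p (B : Fin r → Fin d → Fin d → ℤ) (k : Fin r → ℤ) (p q : Fin d → ℤ) (a b : ℤ) :
    om B k (ic p) (ic (cmb p q a b)) = b * om B k (ic p) (ic q) := by
  rw [ic_cmb, om_add_right, om_smul_right, om_smul_right, om_self]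
  ring

lemma om_q (B : Fin r → Fin d → Fin d → ℤ) (k : Fin r → ℤ) (p q : Fin d → ℤ) (a b : ℤ) :
    om B k (ic q) (ic (cmb p q a b)) = -(a * om B k (ic p) (ic q)) := by
  rw [ic_cmb, om_add_right, om_smul_right, om_smul_right, om_self, om_swap B k (ic q) (ic p)]
  ring

lemma den_mul (a : ℚ) : (a.den : ℝ) * (a : ℝ) = a.num := by
  have h : (a.den : ℚ) * a = a.num := by rw [mul_comm]; exact Rat.mul_den_eq_num a
  exact_mod_cast h

end CIx

open CIx in
theorem rowCI : CI_stmt := by
  intro hCG d r B k p q m hP E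
  obtain ⟨hm, hpq, hid⟩ := hP
  have hmR : (m : ℝ) ≠ 0 := by exact_mod_cast hm
  refine ⟨hCG d r B k (M1 B k p q m) (1 / (m : ℚ)) (by positivity) ?_ ?_ ?_ E,
    hCG d r B k (M2 B k p q) (2 * (m : ℚ)) (mul_ne_zero two_ne_zero (by exact_mod_cast hm))
      ?_ ?_ ?_ E⟩
  · intro x y
    have h := hid x y
    simp only [M1]
    push_cast
    rw [om_swap B k x (ic q), om_swap B k y (ic q)]
    field_simp
    linarith
  · intro v
    obtain ⟨n1, h1⟩ := om_int B k v q
    obtain ⟨n2, h2⟩ := om_int B k p v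
    refine ⟨(n1 : ℚ) / m, (n2 : ℚ) / m, ?_⟩
    simp only [M1, h1, h2]
    push_cast
    rfl
  · intro a b
    refine ⟨a.den * b.den, Nat.one_le_iff_ne_zero.2 (mul_ne_zero a.den_nz b.den_nz),
      cmb p q (a.num * b.den) (b.num * a.den), ?_⟩
    have ha := den_mul a
    have hb := den_mul b
    simp only [M1]
    rw [om_swap B k (ic (cmb p q _ _)) (ic q), om_q, om_p, hpq]
    push_cast
    rw [← ha, ← hb]
    apply Prod.ext
    · simp only
      field_simp
    · simp only
      field_simp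
  · intro x y
    have h := hid x y
    simp only [M2]
    push_cast
    linear_combination (-2 : ℝ) * h
  · intro v
    obtain ⟨n1, h1⟩ := om_int B k p v
    obtain ⟨n2, h2⟩ := om_int B k q v
    refine ⟨2 * (n1 : ℚ), (n2 : ℚ), ?_⟩
    simp only [M2, h1, h2]
    push_cast
    rfl
  · intro a b
    refine ⟨2 * m.natAbs ^ 2 * (a.den * b.den), Nat.one_le_iff_ne_zero.2 (mul_ne_zero
      (mul_ne_zero two_ne_zero (pow_ne_zero 2 (Int.natAbs_ne_zero.2 hm)))
      (mul_ne_zero a.den_nz b.den_nz)),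
      cmb p q (-(2 * m * b.num * a.den)) (m * a.num * b.den), ?_⟩
    have ha := den_mul a
    have hb := den_mul b
    have hn : (m.natAbs : ℝ) ^ 2 = (m : ℝ) ^ 2 := by
      rw [Nat.cast_natAbs, Int.cast_abs, sq_abs]
    simp only [M2]
    rw [om_q, om_p, hpq]
    push_cast
    rw [← ha, ← hb, hn]
    apply Prod.ext
    · simp only
      ring
    · simp only
      ring

end Pool.Agent.TS2
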