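import Pool.Agent.Lib.TS2.Defs
import Pool.Agent.Lib.HB.Basic

/-!
# Row CNV: the estimate of Q1 passes to the Heisenberg group (MP_663568_nt)
-/

set_option autoImplicit false
open Finset MeasureTheory

namespace Pool.Agent.TS2

open Pool.Agent.Lib.MP_663568_nt Pool.Agent.Lib.MP_663568_nt.Katai
  Pool.Agent.Lib.MP_663568_nt.Nul Pool.Agent.Lib.MP_663568_nt.Fib

namespace RowCNV

variable {d r : ℕ} {B : Fin r → Fin d → Fin d → ℤ}

lemma kz_smul (c : ℤ) (k : Fin r → ℤ) (z : Fin r → ℝ) : kz (c • k) z = c * kz k z := by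
  simp only [kz, mul_sum, Pi.smul_apply, smul_eq_mul]
  exact sum_congr rfl fun i _ => by push_cast; ring

lemma kz_sub (k l : Fin r → ℤ) (z : Fin r → ℝ) : kz (k - l) z = kz k z - kz l z := by
  simp only [kz, ← sum_sub_distrib, Pi.sub_apply]
  exact sum_congr rfl fun i _ => by push_cast; ring

lemma om_smul (c : ℤ) (k : Fin r → ℤ) (x y : Fin d → ℝ) :
    om B (c • k) x y = c * om B k x y := by
  simp only [om, mul_sum, Pi.smul_apply, smul_eq_mul]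
  exact sum_congr rfl fun i _ => by push_cast; ring

lemma rk2_smul {c : ℤ} (hc : c ≠ 0) {k : Fin r → ℤ} (hk : Rk2 B k) : Rk2 B (c • k) := by
  obtain ⟨⟨x, y, hxy⟩, u, v, huv⟩ := hk
  have hc' : (c : ℝ) ≠ 0 := by exact_mod_cast hc
  refine ⟨⟨x, y, ?_⟩, (c : ℝ) • u, v, fun x y => ?_⟩
  · rw [om_smul]
    exact mul_ne_zero hc' hxy
  · rw [om_smul, huv]
    have h1 : ∀ w : Fin d → ℝ, ∑ i, ((c : ℝ) • u) i * w i = c * ∑ i, u i * w i := by
      intro w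
      rw [mul_sum]
      exact sum_congr rfl fun i _ => by rw [Pi.smul_apply, smul_eq_mul]; ring
    rw [h1, h1]
    ring

/-- The pull back of a function of frequency one. -/
lemma sp2_pull {p q : Fin d → ℤ} {m : ℤ} {k : Fin r → ℤ} (hINT : INT_stmt)
    (hP : Plu B k p q m) (hk : Rk2 B k) {Φ : Two B →* HB.Heis} (hc : Continuous Φ)
    (hG : ∀ g ∈ Gam B, Φ g ∈ HB.Gam)
    (hz : ∀ z : Fin r → ℝ, Φ ⟨0, z⟩ = ⟨0, 0, 2 * m * kz k z⟩) {f : HB.Heis → ℂ}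
    (hf : HB.Ver 1 f) : Reg (Gam B) (fun g => f (Φ g)) ∧ Sp2 (fun g => f (Φ g)) := by
  refine ⟨⟨hf.1.1.comp hc, fun x γ hγ => ?_⟩, fun l hl g => ?_⟩
  · show f (Φ (x * γ)) = _
    rw [map_mul]
    exact hf.1.2 _ _ (hG γ hγ)
  · have hne : (2 * m) • k - l ≠ 0 := by
      intro h0
      apply hl
      rw [← sub_eq_zero.1 h0]
      exact rk2_smul (mul_ne_zero two_ne_zero hP.1) hk
    have h1 : ∀ z : Fin r → ℝ, ee (-(kz l z)) * f (Φ (g * ⟨0, z⟩)) =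
        ee (kz ((2 * m) • k - l) z) * f (Φ g) := by
      intro z
      rw [map_mul, hz, hf.2, kz_sub, kz_smul, ← mul_assoc, ← ee_add]
      congr 2
      push_cast
      ring
    show ∫ z in Set.Icc (0 : Fin r → ℝ) 1, ee (-(kz l z)) * f (Φ (g * ⟨0, z⟩)) = 0
    simp only [h1]
    rw [integral_mul_const, hINT r _ hne, zero_mul]

theorem AE2_bdd {f : Two B → ℂ} {C : ℝ} (hC : ∀ g, ‖f g‖ ≤ C) (E : Set (Fin d → ℝ)) (x₀ : Two B)
    (H n : ℕ) : BddAbove (Set.range fun g : {g : Two B // g.x ∈ E} =>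
      ‖∑ h ∈ Icc 1 H, f ((g : Two B) ^ (h + n) * x₀) * muC (n + h)‖) := by
  refine ⟨H * C, ?_⟩
  rintro _ ⟨g, rfl⟩
  have h1 := HB.norm_sum_mu_le (u := fun h => f ((g : Two B) ^ (h + n) * x₀)) (fun h => hC _) H n
  convert h1 using 2
  exact sum_congr rfl fun h _ => mul_comm _ _

end RowCNV

open RowCNV

theorem rowCNV : CNV_stmt := by
  intro hPHI hINT d r B k p q m hP hk E hQ f hf x₀ ε hε
  obtain ⟨Φ, hc, hM, hG, hz, hzs, hs⟩ := hPHI d r B k p q m hP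
  obtain ⟨hreg, hsp⟩ := sp2_pull hINT hP hk hc hG hz hf
  obtain ⟨y₀, hy₀⟩ := hs x₀
  obtain ⟨H₀, hH₀⟩ := hQ _ hreg hsp y₀ ε hε
  refine ⟨H₀, fun H N hH hN => le_trans ?_ (hH₀ H N hH hN)⟩
  obtain ⟨C, hC0, hC⟩ := HB.reg_bound hf.1
  refine sum_le_sum fun n _ => mul_le_mul_of_nonneg_left ?_ (by positivity)
  refine Real.iSup_le (fun g => ?_) (Real.iSup_nonneg fun _ => norm_nonneg _)
  obtain ⟨x, hx, hg⟩ := g.2
  obtain ⟨z, hzx⟩ := hzs x (g : HB.Heis).z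
  have hg' : Φ ⟨x, z⟩ = (g : HB.Heis) := by
    have h1 := (hM ⟨x, z⟩).trans hg
    have h2 := Prod.ext_iff.1 h1
    exact HB.Heis.ext h2.1 h2.2 hzx
  have h7 := le_ciSup (AE2_bdd (fun g => hC (Φ g)) E y₀ H n)
    (⟨⟨x, z⟩, hx⟩ : {g : Two B // g.x ∈ E})
  refine le_trans (le_of_eq ?_) h7
  congr 1
  refine sum_congr rfl fun h _ => ?_
  show _ = f (Φ ((⟨x, z⟩ : Two B) ^ (h + n) * y₀)) * _
  rw [map_mul, map_pow, hg', hy₀]

end Pool.Agent.TS2
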