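import Pool.Agent.Lib.TS2.Defs

/-!
# Row INT: the integrals of the characters over the unit cube
-/

set_option autoImplicit false
open Finset MeasureTheory

namespace Pool.Agent.TS2

open Pool.Agent.Lib.MP_663568_nt Pool.Agent.Lib.MP_663568_nt.Katai
  Pool.Agent.Lib.MP_663568_nt.Nul Pool.Agent.Lib.MP_663568_nt.Fib

namespace INTx

lemma ee_zero : ee 0 = 1 := by simpa using ee_int 0

lemma ee_sum {ι : Type*} (s : Finset ι) (f : ι → ℝ) : ee (∑ i ∈ s, f i) = ∏ i ∈ s, ee (f i) := by
  classical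
  induction s using Finset.induction_on with
  | empty => simpa using ee_zero
  | insert a s ha ih => rw [sum_insert ha, prod_insert ha, ee_add, ih]

/-- The integral of a nontrivial character over a period. -/
lemma integral_ee (l : ℤ) (hl : l ≠ 0) : ∫ t in Set.Icc (0 : ℝ) 1, ee ((l : ℝ) * t) = 0 := by
  rw [integral_Icc_eq_integral_Ioc, ← intervalIntegral.integral_of_le zero_le_one]
  have h1 : ∀ t : ℝ, ee ((l : ℝ) * t) = Complex.exp ((2 * Real.pi * Complex.I * l) * t) := by
    intro t
    rw [ee]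
    congr 1
    push_cast
    ring
  simp only [h1]
  have h2 : (2 * Real.pi * Complex.I * l) ≠ 0 :=
    mul_ne_zero Complex.two_pi_I_ne_zero (by exact_mod_cast hl)
  rw [integral_exp_mul_complex h2]
  have h3 : Complex.exp (2 * Real.pi * Complex.I * l) = 1 := by
    rw [Complex.exp_eq_one_iff]
    exact ⟨l, by ring⟩
  simp [h3]

end INTx

theorem rowINT : INT_stmt := by
  intro r l hl
  obtain ⟨c, hc⟩ : ∃ c, l c ≠ 0 := by
    by_contra h
    push Not at h
    exact hl (funext h)
  have h1 : ∀ z : Fin r → ℝ, ee (kz l z) = ∏ c, ee ((l c : ℝ) * z c) := fun z => INTx.ee_sum _ _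
  simp only [h1]
  have h2 : (Set.Icc (0 : Fin r → ℝ) 1) = Set.univ.pi fun _ => Set.Icc (0 : ℝ) 1 := by
    rw [Set.pi_univ_Icc]
    rfl
  rw [h2, volume_pi, Measure.restrict_pi_pi,
    integral_fintype_prod_eq_prod (fun c (t : ℝ) => ee ((l c : ℝ) * t))]
  exact prod_eq_zero (mem_univ c) (INTx.integral_ee (l c) hc)

end Pool.Agent.TS2
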