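import Pool.Agent.Lib.TS2.Defs
import Pool.Agent.Lib.HB.Basic
import Pool.Agent.Lib.HB.N
import Pool.Agent.Lib.HB.L
import Pool.Agent.Lib.HB.T

/-!
# Row LV: the converse for the lines through `0`, functions of frequency one
-/

set_option autoImplicit false
open Finset MeasureTheory

namespace Pool.Agent.TS2

open Pool.Agent.Lib.MP_663568_nt Pool.Agent.Lib.MP_663568_nt.Katai
  Pool.Agent.Lib.MP_663568_nt.Nul Pool.Agent.Lib.MP_663568_nt.Fib Pool.Agent.HB

theorem rowLV (hN : NV_stmt) : LV_stmt := by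
  intro E hQ hE
  unfold LinFree at hE
  push Not at hE
  obtain ⟨a, b, hab, t, ht⟩ := hE
  -- the direction as coprime integers
  obtain ⟨p, q, r, s, c, hdet, h1, h2⟩ : ∃ (p q r s : ℤ) (c : ℚ), p * s - q * r = 1 ∧
      (p : ℚ) * a + q * b = c ∧ (r : ℚ) * a + s * b = 0 := by
    -- common denominator
    obtain ⟨a', b', d, hd, ha, hb⟩ : ∃ (a' b' : ℤ) (d : ℚ), d ≠ 0 ∧ a = a' * d ∧ b = b' * d := by
      refine ⟨a.num * b.den, b.num * a.den, 1 / (a.den * b.den), ?_, ?_, ?_⟩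
      · have h1 : (a.den : ℚ) ≠ 0 := by exact_mod_cast a.den_nz
        have h2 : (b.den : ℚ) ≠ 0 := by exact_mod_cast b.den_nz
        positivity
      · have h1 : (a.den : ℚ) ≠ 0 := by exact_mod_cast a.den_nz
        have h2 : (b.den : ℚ) ≠ 0 := by exact_mod_cast b.den_nz
        conv_lhs => rw [← Rat.num_div_den a]
        push_cast
        field_simp
      · have h1 : (a.den : ℚ) ≠ 0 := by exact_mod_cast a.den_nz
        have h2 : (b.den : ℚ) ≠ 0 := by exact_mod_cast b.den_nz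
        conv_lhs => rw [← Rat.num_div_den b]
        push_cast
        field_simp
    have hab' : a' ≠ 0 ∨ b' ≠ 0 := by
      by_contra hcon
      push Not at hcon
      rcases hab with h | h
      · exact h (by rw [ha, hcon.1]; simp)
      · exact h (by rw [hb, hcon.2]; simp)
    have hg0 : (Int.gcd a' b' : ℤ) ≠ 0 := by
      intro h
      have h1 : Int.gcd a' b' = 0 := by exact_mod_cast h
      rw [Int.gcd_eq_zero_iff] at h1
      rcases hab' with h | h
      · exact h h1.1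
      · exact h h1.2
    obtain ⟨u, hu⟩ := Int.gcd_dvd_left a' b'
    obtain ⟨v, hv⟩ := Int.gcd_dvd_right a' b'
    have hbez := Int.gcd_eq_gcd_ab a' b'
    refine ⟨Int.gcdA a' b', Int.gcdB a' b', -v, u, (Int.gcd a' b' : ℤ) * d, ?_, ?_, ?_⟩
    · have h1 : (Int.gcd a' b' : ℤ) * (Int.gcdA a' b' * u - Int.gcdB a' b' * (-v)) =
          (Int.gcd a' b' : ℤ) * 1 := by
        calc (Int.gcd a' b' : ℤ) * (Int.gcdA a' b' * u - Int.gcdB a' b' * (-v))
            = ((Int.gcd a' b' : ℤ) * u) * Int.gcdA a' b' +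
                ((Int.gcd a' b' : ℤ) * v) * Int.gcdB a' b' := by ring
          _ = (Int.gcd a' b' : ℤ) * 1 := by rw [← hu, ← hv, ← hbez, mul_one]
      exact mul_left_cancel₀ hg0 h1
    · rw [ha, hb, hbez]
      push_cast
      ring
    · have h1 : -v * a' + u * b' = 0 := by
        have h2 : (-v * a' + u * b') = -v * ((Int.gcd a' b' : ℤ) * u) +
            u * ((Int.gcd a' b' : ℤ) * v) := by rw [← hu, ← hv]
        rw [h2]
        ring
      have h2 : (((-v : ℤ) : ℚ)) * a' + (u : ℚ) * b' = 0 := by exact_mod_cast h1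
      rw [ha, hb]
      linear_combination d * h2
  have hQ' := hN E hQ p q r s hdet
  obtain ⟨f, hf, hf1, hf2, -⟩ := rowT 1 le_rfl
  intro ε hε
  obtain ⟨H₀, hH₀⟩ := hQ' f hf 1 ε hε
  refine ⟨H₀, fun H N hH hNN => le_trans ?_ (hH₀ H N hH hNN)⟩
  refine sum_le_sum fun n _ => mul_le_mul_of_nonneg_left ?_ (by positivity)
  refine Real.iSup_le (fun v => ?_) (Real.iSup_nonneg fun _ => norm_nonneg _)
  obtain ⟨⟨v1, v2⟩, hv⟩ := v
  have hv0 : v1 = 0 := hv
  subst hv0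
  -- the element over the point
  have h1' : (p : ℝ) * (t * (a : ℝ)) + q * (t * (b : ℝ)) = t * (c : ℝ) := by
    have h3 : (p : ℝ) * a + q * b = c := by exact_mod_cast h1
    rw [← h3]
    ring
  have h2' : (r : ℝ) * (t * (a : ℝ)) + s * (t * (b : ℝ)) = 0 := by
    have h3 : (r : ℝ) * a + s * b = 0 := by exact_mod_cast h2
    linear_combination t * h3
  have hmem : ((⟨t * (c : ℝ), 0, v2⟩ : Heis).x, (⟨t * (c : ℝ), 0, v2⟩ : Heis).y) ∈
      {w : ℝ × ℝ | ∃ u ∈ E, w = (p * u.1 + q * u.2, r * u.1 + s * u.2)} := by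
    refine ⟨_, ht, ?_⟩
    show (t * (c : ℝ), (0 : ℝ)) = _
    rw [← h1', ← h2']
  have h7 := le_ciSup (AE_bdd hf1 {w : ℝ × ℝ | ∃ u ∈ E, w = (p * u.1 + q * u.2, r * u.1 + s * u.2)}
    1 H n) (⟨⟨t * (c : ℝ), 0, v2⟩, hmem⟩ :
      {g : Heis // (g.x, g.y) ∈ {w : ℝ × ℝ | ∃ u ∈ E, w = (p * u.1 + q * u.2, r * u.1 + s * u.2)}})
  refine le_trans (le_of_eq ?_) h7
  have h8 : ∀ k : ℕ, f ((⟨t * (c : ℝ), 0, v2⟩ : Heis) ^ k * 1) = ee (v2 * k) := by
    intro k
    rw [mul_one]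
    have h9 : (⟨t * (c : ℝ), 0, v2⟩ : Heis) ^ k = ⟨k * (t * c), ((0 : ℤ) : ℝ), k * v2⟩ := by
      ext
      · rw [Heis.pow_x]
      · rw [Heis.pow_y]
        simp
      · rw [Heis.pow_z]
        simp
    rw [h9, hf2]
    congr 1
    push_cast
    ring
  simp only [h8]
  show ‖∑ h ∈ Icc 1 H, muC (n + h) * ee (0 * (h : ℝ) ^ 2 + v2 * (h : ℝ))‖ = _
  have h10 : ∑ h ∈ Icc 1 H, ee (v2 * ((h + n : ℕ) : ℝ)) * muC (n + h) =
      ee (v2 * n) * ∑ h ∈ Icc 1 H, muC (n + h) * ee (0 * (h : ℝ) ^ 2 + v2 * (h : ℝ)) := by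
    rw [mul_sum]
    refine sum_congr rfl fun h _ => ?_
    rw [show v2 * ((h + n : ℕ) : ℝ) = v2 * n + v2 * h by push_cast; ring, ee_add, zero_mul, zero_add]
    ring
  rw [h10, norm_mul, norm_ee, one_mul]

end Pool.Agent.TS2
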