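import Pool.Agent.Lib.TS2.Defs
import Pool.Agent.Lib.HB.M
import Pool.Agent.Lib.HB.T

/-!
# Row MV: the converse for the rational lines which do not contain `0`, functions of frequency one
-/

set_option autoImplicit false
open Finset MeasureTheory Polynomial

namespace Pool.Agent.TS2

open Pool.Agent.Lib.MP_663568_nt Pool.Agent.Lib.MP_663568_nt.Katai
  Pool.Agent.Lib.MP_663568_nt.Nul Pool.Agent.Lib.MP_663568_nt.Fib Pool.Agent.HB

open Mx Ix in
theorem rowMV (hN : NV_stmt) : MV_stmt := by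
  intro E hEc hQ hnot
  unfold QuadNull at hnot
  push Not at hnot
  obtain ⟨p, q, a, b, hdet0, hvol⟩ := hnot
  -- an integer vector orthogonal to the direction
  obtain ⟨D, hD0, u, v, hu, hv⟩ : ∃ D : ℚ, D ≠ 0 ∧ ∃ u v : ℤ, (u : ℚ) = D * b ∧ (v : ℚ) = -(D * a) := by
    refine ⟨a.den * b.den, by positivity, a.den * b.num, -(b.den * a.num), ?_, ?_⟩
    · push_cast
      nth_rw 3 [← Rat.num_div_den b]
      field_simp
    · push_cast
      nth_rw 3 [← Rat.num_div_den a]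
      field_simp
  have hab : a ≠ 0 ∨ b ≠ 0 := by
    by_contra hcon
    push Not at hcon
    rw [hcon.1, hcon.2] at hdet0
    simp at hdet0
  have huv : u ≠ 0 ∨ v ≠ 0 := by
    rcases hab with h | h
    · right
      intro h0
      rw [h0] at hv
      have : D * a = 0 := by rw [← neg_eq_zero, ← hv]; simp
      exact (mul_ne_zero hD0 h) this
    · left
      intro h0
      rw [h0] at hu
      exact (mul_ne_zero hD0 h) (by rw [← hu]; simp)
  obtain ⟨κ, hκ, P, Q, r, s, hdet, hur, hvs⟩ := line_data u v huv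
  have hκ0 : (κ : ℚ) ≠ 0 := by positivity
  have hrq : (r : ℚ) = D * b / κ := by
    rw [eq_div_iff hκ0, ← hu, hur]; push_cast; ring
  have hsq : (s : ℚ) = -(D * a) / κ := by
    rw [eq_div_iff hκ0, ← hv, hvs]; push_cast; ring
  obtain ⟨E', hE'⟩ : ∃ E' : Set (ℝ × ℝ), E' = {v | ∃ u ∈ E, v = ((P : ℝ) * u.1 + Q * u.2,
    (r : ℝ) * u.1 + s * u.2)} := ⟨_, rfl⟩
  have hQ' : Q1V E' := by rw [hE']; exact hN E hQ P Q r s hdet
  have hE'c : IsCompact E' := by
    have e : E' = (fun u : ℝ × ℝ => ((P : ℝ) * u.1 + Q * u.2, (r : ℝ) * u.1 + s * u.2)) '' E := by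
      rw [hE']
      ext w
      constructor
      · rintro ⟨u, hu, rfl⟩
        exact ⟨u, hu, rfl⟩
      · rintro ⟨u, hu, rfl⟩
        exact ⟨u, hu, rfl⟩
    rw [e]
    exact hEc.image (by fun_prop)
  obtain ⟨b₀, hb₀⟩ : ∃ b₀ : ℚ, b₀ = r * p + s * q := ⟨_, rfl⟩
  have hb₀' : b₀ ≠ 0 := by
    have e : b₀ = D / κ * (p * b - q * a) := by
      rw [hb₀, hrq, hsq]; ring
    rw [e]
    exact mul_ne_zero (div_ne_zero hD0 hκ0) hdet0
  have hdir : (r : ℚ) * a + s * b = 0 := by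
    rw [hrq, hsq]; ring
  have hdq : (P : ℚ) * s - Q * r = 1 := by exact_mod_cast hdet
  obtain ⟨lam, hlam⟩ : ∃ lam : ℚ, lam = P * a + Q * b := ⟨_, rfl⟩
  have hlam0 : lam ≠ 0 := by
    intro h0
    rw [h0] at hlam
    have ha : a = 0 := by
      have : s * (P * a + Q * b) - Q * (r * a + s * b) = a := by linear_combination a * hdq
      rw [← this, ← hlam, hdir]; ring
    have hb : b = 0 := by
      have : -r * (P * a + Q * b) + P * (r * a + s * b) = b := by linear_combination b * hdq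
      rw [← this, ← hlam, hdir]; ring
    rcases hab with h | h
    · exact h ha
    · exact h hb
  have hslv : volume (Sl (b₀ : ℝ) E') ≠ 0 := by
    intro h0
    refine hvol ?_
    have hlr : (lam : ℝ) ≠ 0 := by exact_mod_cast hlam0
    have hsub : {t : ℝ | ((p : ℝ) + t * (a : ℝ), (q : ℝ) + t * (b : ℝ)) ∈ E} ⊆
        ((lam : ℝ) * ·) ⁻¹' ((fun y => y + ((P * p + Q * q : ℚ) : ℝ)) ⁻¹' Sl (b₀ : ℝ) E') := by
      intro t ht
      simp only [Set.mem_preimage]
      change (_, (b₀ : ℝ)) ∈ E'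
      rw [hE']
      refine ⟨_, ht, ?_⟩
      have hdr : (r : ℝ) * a + s * b = 0 := by exact_mod_cast hdir
      ext
      · simp only
        rw [hlam]
        push_cast
        ring
      · simp only
        rw [hb₀]
        push_cast
        linear_combination (-t) * hdr
    refine measure_mono_null hsub ?_
    rw [Real.volume_preimage_mul_left hlr, measure_preimage_add_right, h0, mul_zero]
  have hb₀r : (b₀ : ℝ) ≠ 0 := by exact_mod_cast hb₀'
  obtain ⟨f, hfV, hf1, hfa, hfb⟩ := rowT b₀.den b₀.den_pos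
  have hsm : ∀ ε : ℝ, 0 < ε → ∃ H₀ : ℕ, ∀ H N : ℕ, H₀ ≤ H → H ≤ N →
      TUK.SBK (BB b₀ E') F1c N H ≤ ε * H * Real.log N := by
    intro ε hε
    have hden : (0 : ℝ) < b₀.den := by exact_mod_cast b₀.den_pos
    have h1 : ∀ j : ℕ, ∃ H₀ : ℕ, ∀ H N : ℕ, H₀ ≤ H → H ≤ N →
        AE f E' (bp b₀ j) N H ≤ ε / b₀.den * H * Real.log N := fun j =>
      hQ' f hfV (bp b₀ j) (ε / b₀.den) (by positivity)
    choose H₀ hH₀ using h1
    refine ⟨∑ j ∈ range b₀.den, H₀ j, fun H N hH hHN => ?_⟩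
    refine (SBK_le hf1 hfa hfb E' N H).trans ?_
    calc ∑ j ∈ range b₀.den, AE f E' (bp b₀ j) N H ≤
          ∑ _j ∈ range b₀.den, ε / b₀.den * H * Real.log N := by
          refine sum_le_sum fun j hj => hH₀ j H N (le_trans ?_ hH) hHN
          exact single_le_sum (f := H₀) (fun _ _ => Nat.zero_le _) hj
      _ = ε * H * Real.log N := by
          rw [sum_const, card_range, nsmul_eq_mul]
          field_simp
  intro ε hε
  obtain ⟨Qm, _, hQm⟩ := TUK.theoremW 0 F1c F1c_laws.1 F1c_laws.2 2 2 (by norm_num) le_rfl le_rfl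
    (BB b₀ E') (BB_closed hE'c) (BB_per _ _) (fun _ => 0) (BB_vol hb₀r hslv _) hsm ε hε
  refine ⟨Qm, fun δ hδ => ?_⟩
  obtain ⟨H₀, hH₀⟩ := hQm δ hδ
  exact ⟨H₀, fun H N hH hHN => (AQ_le_AT _ N H).trans (hH₀ H N hH hHN)⟩

end Pool.Agent.TS2
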