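import Pool.Agent.Lib.TS2.Defs
import Pool.Agent.Lib.HB.Basic
import Pool.Agent.Lib.HB.N
import Pool.Agent.Lib.HB.E

/-!
# Row NV: the estimate for the functions of frequency one passes to the image under `SL₂(ℤ)`
-/

set_option autoImplicit false
open Finset MeasureTheory

namespace Pool.Agent.TS2

open Pool.Agent.Lib.MP_663568_nt Pool.Agent.Lib.MP_663568_nt.Katai
  Pool.Agent.Lib.MP_663568_nt.Nul Pool.Agent.Lib.MP_663568_nt.Fib Pool.Agent.HB

theorem rowNV : NV_stmt := by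
  intro E hQ p q r s hdet f hf x₀ ε hε
  obtain ⟨σ, hσ, hσ', hσx, hσy, hσc, hσG⟩ := rowE p q r s hdet
  have hf' : Ver 1 (fun g => f (σ g)) := by
    refine ⟨⟨hf.1.1.comp hσ, fun x γ hγ => ?_⟩, fun g t => ?_⟩
    · show f (σ (x * γ)) = _
      rw [map_mul]
      exact hf.1.2 _ _ ((hσG γ).1 hγ)
    · show f (σ (g * ⟨0, 0, t⟩)) = _
      rw [hσc]
      exact hf.2 _ _
  obtain ⟨H₀, hH₀⟩ := hQ _ hf' (σ.symm x₀) ε hε
  refine ⟨H₀, fun H N hH hN => le_trans ?_ (hH₀ H N hH hN)⟩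
  obtain ⟨B, hB0, hB⟩ := reg_bound hf'.1
  refine sum_le_sum fun n _ => mul_le_mul_of_nonneg_left ?_ (by positivity)
  refine Real.iSup_le (fun g => ?_) (Real.iSup_nonneg fun _ => norm_nonneg _)
  obtain ⟨u, hu, hg⟩ := g.2
  have hdet' : (p : ℝ) * s - q * r = 1 := by exact_mod_cast hdet
  have h1 := Prod.ext_iff.1 hg
  have h2 : (p : ℝ) * (σ.symm (g : Heis)).x + q * (σ.symm (g : Heis)).y = p * u.1 + q * u.2 := by
    rw [← hσx, MulEquiv.apply_symm_apply]
    exact h1.1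
  have h3 : (r : ℝ) * (σ.symm (g : Heis)).x + s * (σ.symm (g : Heis)).y = r * u.1 + s * u.2 := by
    rw [← hσy, MulEquiv.apply_symm_apply]
    exact h1.2
  have h4 : (σ.symm (g : Heis)).x = u.1 := by
    linear_combination (s : ℝ) * h2 - q * h3 +
      (u.1 - (σ.symm (g : Heis)).x) * hdet'
  have h5 : (σ.symm (g : Heis)).y = u.2 := by
    linear_combination (p : ℝ) * h3 - r * h2 +
      (u.2 - (σ.symm (g : Heis)).y) * hdet'
  have h6 : ((σ.symm (g : Heis)).x, (σ.symm (g : Heis)).y) ∈ E := by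
    rw [h4, h5]
    exact hu
  have h7 := le_ciSup (AE_bdd hB E (σ.symm x₀) H n)
    (⟨σ.symm (g : Heis), h6⟩ : {g : Heis // (g.x, g.y) ∈ E})
  refine le_trans (le_of_eq ?_) h7
  congr 1
  refine sum_congr rfl fun h _ => ?_
  show _ = f (σ ((σ.symm (g : Heis)) ^ (h + n) * σ.symm x₀)) * _
  rw [map_mul, map_pow, MulEquiv.apply_symm_apply, MulEquiv.apply_symm_apply]

end Pool.Agent.TS2
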