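import Pool.Agent.Lib.TS2.Defs

/-!
# Row PHI: the homomorphism from the two-step group to the Heisenberg group (MP_663568_nt)

`Φ (x, z) = (2 om(p,x), om(q,x), 2 m k·z + om(p,x) om(q,x) - m k·B(x,x))`.
-/

set_option autoImplicit false
open Finset MeasureTheory

namespace Pool.Agent.TS2

noncomputable section

namespace PHIx

variable {d r : ℕ}

lemma kz_add (k : Fin r → ℤ) (z w : Fin r → ℝ) : kz k (z + w) = kz k z + kz k w := by
  simp only [kz, Pi.add_apply, mul_add, sum_add_distrib]

lemma kz_smul (k : Fin r → ℤ) (s : ℝ) (z : Fin r → ℝ) : kz k (s • z) = s * kz k z := by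
  simp only [kz, Pi.smul_apply, smul_eq_mul, mul_sum]
  exact sum_congr rfl fun c _ => by ring

lemma kz_zero (k : Fin r → ℤ) : kz k 0 = 0 := by simp [kz]

lemma om_eq (B : Fin r → Fin d → Fin d → ℤ) (k : Fin r → ℤ) (x y : Fin d → ℝ) :
    om B k x y = kz k (bil B x y) - kz k (bil B y x) := by
  simp only [om, kz, ← sum_sub_distrib]
  exact sum_congr rfl fun c _ => by ring

lemma om_add_right (B : Fin r → Fin d → Fin d → ℤ) (k : Fin r → ℤ) (x y y' : Fin d → ℝ) :
    om B k x (y + y') = om B k x y + om B k x y' := by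
  simp only [om_eq, bil_add_right, bil_add_left, kz_add]
  ring

lemma om_smul_right (B : Fin r → Fin d → Fin d → ℤ) (k : Fin r → ℤ) (x : Fin d → ℝ) (s : ℝ)
    (y : Fin d → ℝ) : om B k x (s • y) = s * om B k x y := by
  simp only [om_eq, bil_smul_right, bil_smul_left, kz_smul]
  ring

lemma om_zero_right (B : Fin r → Fin d → Fin d → ℤ) (k : Fin r → ℤ) (x : Fin d → ℝ) :
    om B k x 0 = 0 := by
  simp only [om_eq, bil_zero_left, bil_zero_right, kz_zero, sub_zero]

lemma om_self (B : Fin r → Fin d → Fin d → ℤ) (k : Fin r → ℤ) (x : Fin d → ℝ) :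
    om B k x x = 0 := by
  simp only [om_eq, sub_self]

lemma om_swap (B : Fin r → Fin d → Fin d → ℤ) (k : Fin r → ℤ) (x y : Fin d → ℝ) :
    om B k x y = - om B k y x := by
  simp only [om_eq]
  ring

lemma kz_int (k : Fin r → ℤ) (n : Fin r → ℤ) :
    kz k (fun c => (n c : ℝ)) = ((∑ c, k c * n c : ℤ) : ℝ) := by
  simp only [kz]
  push_cast
  rfl

lemma beta_int (B : Fin r → Fin d → Fin d → ℤ) (k : Fin r → ℤ) (m n : Fin d → ℤ) :
    ∃ N : ℤ, kz k (bil B (ic m) (ic n)) = N := by
  refine ⟨∑ c, k c * (∑ i, ∑ j, B c i j * (m i * n j)), ?_⟩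
  unfold ic
  rw [bil_int, kz_int]

lemma om_int (B : Fin r → Fin d → Fin d → ℤ) (k : Fin r → ℤ) (m n : Fin d → ℤ) :
    ∃ N : ℤ, om B k (ic m) (ic n) = N := by
  obtain ⟨a, ha⟩ := beta_int B k m n
  obtain ⟨b, hb⟩ := beta_int B k n m
  exact ⟨a - b, by rw [om_eq, ha, hb]; push_cast; ring⟩

lemma continuous_kz (k : Fin r → ℤ) {α : Type*} [TopologicalSpace α]
    {f : α → Fin r → ℝ} (hf : Continuous f) : Continuous fun a => kz k (f a) := by
  unfold kz
  exact continuous_finsetSum _ fun c _ => continuous_const.mul ((continuous_apply c).comp hf)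

lemma continuous_om (B : Fin r → Fin d → Fin d → ℤ) (k : Fin r → ℤ) (x : Fin d → ℝ)
    {α : Type*} [TopologicalSpace α] {f : α → Fin d → ℝ} (hf : Continuous f) :
    Continuous fun a => om B k x (f a) := by
  simp only [om_eq]
  exact (continuous_kz k (continuous_bil B continuous_const hf)).sub
    (continuous_kz k (continuous_bil B hf continuous_const))

/-- The map. -/
def phi (B : Fin r → Fin d → Fin d → ℤ) (k : Fin r → ℤ) (p q : Fin d → ℤ) (m : ℤ)
    (g : Two B) : HB.Heis :=
  ⟨2 * om B k (ic p) g.x, om B k (ic q) g.x,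
    2 * m * kz k g.z + om B k (ic p) g.x * om B k (ic q) g.x - m * kz k (bil B g.x g.x)⟩

lemma phi_mul (B : Fin r → Fin d → Fin d → ℤ) (k : Fin r → ℤ) (p q : Fin d → ℤ) (m : ℤ)
    (h : Plu B k p q m) (g g' : Two B) :
    phi B k p q m (g * g') = phi B k p q m g * phi B k p q m g' := by
  have key := h.2.2 g.x g'.x
  rw [om_eq B k g.x g'.x] at key
  apply HB.Heis.ext
  · simp only [phi, HB.Heis.mul_x, Two.mul_x, om_add_right]
    ring
  · simp only [phi, HB.Heis.mul_y, Two.mul_x, om_add_right]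
  · simp only [phi, HB.Heis.mul_z, Two.mul_x, Two.mul_z, om_add_right, kz_add, bil_add_left,
      bil_add_right]
    linear_combination key

lemma continuous_phi (B : Fin r → Fin d → Fin d → ℤ) (k : Fin r → ℤ) (p q : Fin d → ℤ) (m : ℤ) :
    Continuous (phi B k p q m) := by
  have h1 : Continuous fun g : Two B => om B k (ic p) g.x :=
    continuous_om B k _ Two.continuous_x
  have h2 : Continuous fun g : Two B => om B k (ic q) g.x :=
    continuous_om B k _ Two.continuous_x
  have h3 : Continuous fun g : Two B => kz k g.z := continuous_kz k Two.continuous_z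
  have h4 : Continuous fun g : Two B => kz k (bil B g.x g.x) :=
    continuous_kz k (continuous_bil B Two.continuous_x Two.continuous_x)
  exact HB.Heis.continuous_mk (continuous_const.mul h1) h2
    (((continuous_const.mul h3).add (h1.mul h2)).sub (continuous_const.mul h4))

/-- `k · k ≠ 0`. -/
lemma kk_pos (B : Fin r → Fin d → Fin d → ℤ) (k : Fin r → ℤ) (p q : Fin d → ℤ) (m : ℤ)
    (h : Plu B k p q m) : kz k (fun c => (k c : ℝ)) ≠ 0 := by
  intro h0
  simp only [kz] at h0
  have hk : ∀ c, (k c : ℝ) = 0 := by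
    intro c
    have := (sum_eq_zero_iff_of_nonneg (fun c _ => mul_self_nonneg (k c : ℝ))).1 h0 c (mem_univ c)
    exact mul_self_eq_zero.1 this
  have hm : (m : ℝ) = 0 := by
    rw [← h.2.1]
    unfold om
    exact sum_eq_zero fun c _ => by rw [hk c, zero_mul]
  exact h.1 (by exact_mod_cast hm)

lemma exists_z (B : Fin r → Fin d → Fin d → ℤ) (k : Fin r → ℤ) (p q : Fin d → ℤ) (m : ℤ)
    (h : Plu B k p q m) (x : Fin d → ℝ) (c : ℝ) :
    ∃ z, (phi B k p q m ⟨x, z⟩).z = c := by
  have hk := kk_pos B k p q m h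
  have hm : (m : ℝ) ≠ 0 := by exact_mod_cast h.1
  refine ⟨((c - om B k (ic p) x * om B k (ic q) x + m * kz k (bil B x x)) /
    (2 * m * kz k (fun c => (k c : ℝ)))) • (fun c => (k c : ℝ)), ?_⟩
  simp only [phi, kz_smul]
  field_simp
  ring

lemma phi_surj (B : Fin r → Fin d → Fin d → ℤ) (k : Fin r → ℤ) (p q : Fin d → ℤ) (m : ℤ)
    (h : Plu B k p q m) : Function.Surjective (phi B k p q m) := by
  have hm : (m : ℝ) ≠ 0 := by exact_mod_cast h.1
  intro u
  set x : Fin d → ℝ := (-(u.y / m)) • ic p + (u.x / (2 * m)) • ic q with hx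
  obtain ⟨z, hz⟩ := exists_z B k p q m h x u.z
  have h1 : om B k (ic p) x = u.x / 2 := by
    rw [hx, om_add_right, om_smul_right, om_smul_right, om_self, h.2.1]
    field_simp
    ring
  have h2 : om B k (ic q) x = u.y := by
    rw [hx, om_add_right, om_smul_right, om_smul_right, om_self, om_swap, h.2.1]
    field_simp
    ring
  refine ⟨⟨x, z⟩, HB.Heis.ext ?_ ?_ hz⟩
  · simp only [phi, h1]
    ring
  · simp only [phi, h2]

end PHIx

open PHIx in
/-- Row PHI. -/
theorem rowPHI : PHI_stmt := by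
  intro d r B k p q m h
  refine ⟨MonoidHom.mk' (phi B k p q m) (phi_mul B k p q m h), continuous_phi B k p q m,
    fun g => rfl, ?_, ?_, ?_, phi_surj B k p q m h⟩
  · rintro _ ⟨a, n, rfl⟩
    obtain ⟨b1, h1⟩ := om_int B k p a
    obtain ⟨b2, h2⟩ := om_int B k q a
    obtain ⟨b3, h3⟩ := beta_int B k a a
    refine ⟨2 * b1, b2, 2 * m * (∑ c, k c * n c) + b1 * b2 - m * b3, ?_⟩
    change om B k (ic p) (fun i => (a i : ℝ)) = b1 at h1
    change om B k (ic q) (fun i => (a i : ℝ)) = b2 at h2
    change kz k (bil B (fun i => (a i : ℝ)) (fun i => (a i : ℝ))) = b3 at h3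
    apply HB.Heis.ext
    · simp only [MonoidHom.mk'_apply, phi, h1]
      push_cast
      ring
    · simp only [MonoidHom.mk'_apply, phi, h2]
    · simp only [MonoidHom.mk'_apply, phi, h1, h2, h3, kz_int]
      push_cast
      ring
  · intro z
    apply HB.Heis.ext
    · simp only [MonoidHom.mk'_apply, phi, om_zero_right, mul_zero]
    · simp only [MonoidHom.mk'_apply, phi, om_zero_right]
    · simp only [MonoidHom.mk'_apply, phi, om_zero_right, mul_zero, bil_zero_left, kz_zero,
        add_zero, sub_zero]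
  · intro x c
    exact exists_z B k p q m h x c

end

end Pool.Agent.TS2
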