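import Mathlib
import Pool.Agent.Lib.TS2.Defs

/-!
# Row PLK: a form of rank two is determined by its values at two integral vectors
-/

set_option autoImplicit false
open Finset

namespace Pool.Agent.TS2

namespace PLKx

variable {d r : ℕ} {B : Fin r → Fin d → Fin d → ℤ}

/-- The form as a double sum. -/
lemma om_eq (k : Fin r → ℤ) (x y : Fin d → ℝ) :
    om B k x y = ∑ i, ∑ j, ((∑ c, k c * (B c i j - B c j i) : ℤ) : ℝ) * (x i * y j) := by
  unfold om bil
  have h1 : ∀ c : Fin r, (k c : ℝ) * (∑ i, ∑ j, (B c i j : ℝ) * (x i * y j) -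
      ∑ i, ∑ j, (B c i j : ℝ) * (y i * x j)) =
      ∑ i, ∑ j, (k c : ℝ) * ((B c i j : ℝ) - B c j i) * (x i * y j) := by
    intro c
    rw [sum_comm (f := fun i j => (B c i j : ℝ) * (y i * x j)), ← sum_sub_distrib, mul_sum]
    refine sum_congr rfl fun i _ => ?_
    rw [← sum_sub_distrib, mul_sum]
    exact sum_congr rfl fun j _ => by ring
  simp_rw [h1]
  rw [sum_comm]
  refine sum_congr rfl fun i _ => ?_
  rw [sum_comm]
  refine sum_congr rfl fun j _ => ?_
  rw [← sum_mul]
  push_cast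
  rfl

lemma om_single (k : Fin r → ℤ) (i j : Fin d) :
    om B k (ic (Pi.single i 1)) (ic (Pi.single j 1)) =
      ((∑ c, k c * (B c i j - B c j i) : ℤ) : ℝ) := by
  rw [om_eq, sum_eq_single i, sum_eq_single j]
  · simp [ic]
  · intro j' _ hj'
    simp [ic, hj']
  · simp
  · intro i' _ hi'
    refine sum_eq_zero fun j' _ => ?_
    simp [ic, Pi.single_apply, hi']
  · simp

end PLKx

open PLKx in
theorem rowPLK : PLK_stmt := by
  intro d r B k hk
  obtain ⟨⟨x, y, hxy⟩, u, v, huv⟩ := hk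
  obtain ⟨i, j, hij⟩ : ∃ i j : Fin d, (∑ c, k c * (B c i j - B c j i) : ℤ) ≠ 0 := by
    by_contra hcon
    push Not at hcon
    refine hxy ?_
    rw [om_eq]
    refine sum_eq_zero fun i _ => sum_eq_zero fun j _ => ?_
    rw [hcon i j]
    simp
  refine ⟨Pi.single i 1, Pi.single j 1, _, hij, om_single k i j, fun x y => ?_⟩
  rw [← om_single k i j]
  rw [huv, huv, huv, huv, huv, huv]
  ring

end Pool.Agent.TS2
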