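import Pool.Agent.Lib.TS2.Defs
import Pool.Agent.Lib.HB.Basic

/-!
# Row QQ: the estimate of Q1 follows from the estimate with free base point
-/

set_option autoImplicit false
open Finset MeasureTheory

namespace Pool.Agent.TS2

open Pool.Agent.Lib.MP_663568_nt Pool.Agent.Lib.MP_663568_nt.Katai
  Pool.Agent.Lib.MP_663568_nt.Nul Pool.Agent.Lib.MP_663568_nt.Fib

namespace QQx

variable {d r : ℕ} {B : Fin r → Fin d → Fin d → ℤ}

lemma W2_nonneg (F : Two B → ℂ) (S : Set (Two B)) (H n : ℕ) : 0 ≤ W2 F S H n :=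
  Real.iSup_nonneg fun _ => norm_nonneg _

lemma W2_bdd {F : Two B → ℂ} {C : ℝ} (hC : ∀ g, ‖F g‖ ≤ C) (S : Set (Two B)) (H n : ℕ) :
    BddAbove (Set.range fun v : {v : Two B × Two B // v.1 ∈ S} =>
      ‖∑ h ∈ Icc 1 H, muC (n + h) * F (v.1.1 ^ h * v.1.2)‖) :=
  ⟨H * C, by rintro _ ⟨v, rfl⟩; exact HB.norm_sum_mu_le (fun h => hC _) H n⟩

lemma le_W2 {F : Two B → ℂ} {C : ℝ} (hC : ∀ g, ‖F g‖ ≤ C) {S : Set (Two B)} {g : Two B}
    (hg : g ∈ S) (x : Two B) (H n : ℕ) :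
    ‖∑ h ∈ Icc 1 H, muC (n + h) * F (g ^ h * x)‖ ≤ W2 F S H n :=
  le_ciSup (W2_bdd hC S H n) (⟨(g, x), hg⟩ : {v : Two B × Two B // v.1 ∈ S})

end QQx

theorem rowQQ : QQ_stmt := by
  intro d r B f hf E x₀ N H
  obtain ⟨C, hC⟩ := hf
  refine sum_le_sum fun n _ => mul_le_mul_of_nonneg_left ?_ (by positivity)
  refine Real.iSup_le (fun g => ?_) (QQx.W2_nonneg _ _ _ _)
  have h1 := QQx.le_W2 hC (S := Over2 B E) (g := (g : Two B)) g.2 ((g : Two B) ^ n * x₀) H n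
  convert h1 using 2
  refine sum_congr rfl fun h _ => ?_
  rw [pow_add, mul_assoc, mul_comm]

end Pool.Agent.TS2
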