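import Mathlib
import Pool.Agent.Lib.TS2.Defs
import Pool.Agent.Lib.MP_663568_nt_h86.FFourier

/-!
# Row RAD: decomposition into eigenfunctions (helper20)

The vectors `v_i = m e_i - om(e_i, q) p - om(p, e_i) q` are integral, lie in the radical of `om` and
span it; the circles through them and the Fourier approximation along circles give the row.
-/

set_option autoImplicit false
open Finset MeasureTheory

namespace Pool.Agent.TS2

open Pool.Agent.Lib.MP_663568_nt Pool.Agent.Lib.MP_663568_nt.Katai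
  Pool.Agent.Lib.MP_663568_nt.Nul Pool.Agent.Lib.MP_663568_nt.Fib

noncomputable section

namespace RADx

variable {d r : ℕ} {B : Fin r → Fin d → Fin d → ℤ} {k : Fin r → ℤ}

lemma om_add_left (x x' y : Fin d → ℝ) : om B k (x + x') y = om B k x y + om B k x' y := by
  simp only [om, bil_add_left, bil_add_right, Pi.add_apply, ← sum_add_distrib]
  exact sum_congr rfl fun c _ => by ring

lemma om_smul_left (s : ℝ) (x y : Fin d → ℝ) : om B k (s • x) y = s * om B k x y := by
  simp only [om, bil_smul_left, bil_smul_right, Pi.smul_apply, smul_eq_mul, mul_sum]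
  exact sum_congr rfl fun c _ => by ring

lemma om_anti (x y : Fin d → ℝ) : om B k x y = -om B k y x := by
  simp only [om, ← sum_neg_distrib]
  exact sum_congr rfl fun c _ => by ring

lemma om_zero_left (y : Fin d → ℝ) : om B k 0 y = 0 := by simp [om]

lemma om_sum_left {ι : Type*} (s : Finset ι) (f : ι → Fin d → ℝ) (y : Fin d → ℝ) :
    om B k (∑ i ∈ s, f i) y = ∑ i ∈ s, om B k (f i) y := by
  classical
  induction s using Finset.induction_on with
  | empty => simp [om_zero_left]
  | insert a s ha ih => rw [sum_insert ha, sum_insert ha, om_add_left, ih]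

/-- The integral values of `om`. -/
def omz (B : Fin r → Fin d → Fin d → ℤ) (k : Fin r → ℤ) (a b : Fin d → ℤ) : ℤ :=
  ∑ c, k c * ((∑ i, ∑ j, B c i j * (a i * b j)) - ∑ i, ∑ j, B c i j * (b i * a j))

lemma om_ic (a b : Fin d → ℤ) : om B k (ic a) (ic b) = (omz B k a b : ℝ) := by
  have h1 : bil B (ic a) (ic b) = fun c => ((∑ i, ∑ j, B c i j * (a i * b j) : ℤ) : ℝ) :=
    bil_int B a b
  have h2 : bil B (ic b) (ic a) = fun c => ((∑ i, ∑ j, B c i j * (b i * a j) : ℤ) : ℝ) :=
    bil_int B b a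
  simp only [om, h1, h2, omz]
  push_cast
  rfl

/-- The unit vectors. -/
def uu (i : Fin d) : Fin d → ℤ := fun j => if j = i then 1 else 0

lemma sum_uu (w : Fin d → ℝ) : ∑ i, w i • ic (uu i) = w := by
  funext j
  simp [Finset.sum_apply, ic, uu]

lemma om_left_sum (w y : Fin d → ℝ) : om B k w y = ∑ i, w i * om B k (ic (uu i)) y := by
  conv_lhs => rw [← sum_uu w]
  rw [om_sum_left]
  exact sum_congr rfl fun i _ => om_smul_left _ _ _

/-- The integral vectors in the radical. -/
def vv (B : Fin r → Fin d → Fin d → ℤ) (k : Fin r → ℤ) (p q : Fin d → ℤ) (m : ℤ) (i : Fin d) :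
    Fin d → ℤ :=
  fun j => m * uu i j - omz B k (uu i) q * p j - omz B k p (uu i) * q j

lemma ic_vv (p q : Fin d → ℤ) (m : ℤ) (i : Fin d) : ic (vv B k p q m i) =
    (m : ℝ) • ic (uu i) + (-om B k (ic (uu i)) (ic q)) • ic p +
      (-om B k (ic p) (ic (uu i))) • ic q := by
  rw [om_ic, om_ic]
  funext j
  simp only [ic, vv, Pi.add_apply, Pi.smul_apply, smul_eq_mul]
  push_cast
  ring

lemma vv_rad {p q : Fin d → ℤ} {m : ℤ} (h : Plu B k p q m) (i : Fin d) (y : Fin d → ℝ) :
    om B k (ic (vv B k p q m i)) y = 0 := by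
  have hm : (m : ℝ) ≠ 0 := by exact_mod_cast h.1
  have h1 := h.2.2 (ic (uu i)) y
  have h2 : om B k (ic (uu i)) (ic q) = -om B k (ic q) (ic (uu i)) := om_anti _ _
  have h3 : (m : ℝ) * om B k (ic (vv B k p q m i)) y = 0 := by
    rw [ic_vv, om_add_left, om_add_left, om_smul_left, om_smul_left, om_smul_left, h2]
    linear_combination (m : ℝ) * h1
  exact (mul_eq_zero.1 h3).resolve_left hm

lemma sum_vv {p q : Fin d → ℤ} {m : ℤ} (w : Fin d → ℝ) (hw : ∀ y, om B k w y = 0) :
    ∑ i, w i • ic (vv B k p q m i) = (m : ℝ) • w := by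
  have h1 : ∑ i, w i * om B k (ic (uu i)) (ic q) = 0 := by rw [← om_left_sum]; exact hw _
  have h2 : ∑ i, w i * om B k (ic p) (ic (uu i)) = 0 := by
    have : ∑ i, w i * om B k (ic (uu i)) (ic p) = 0 := by rw [← om_left_sum]; exact hw _
    rw [← neg_eq_zero, ← this, ← sum_neg_distrib]
    exact sum_congr rfl fun i _ => by rw [om_anti (ic p)]; ring
  have h3 : ∀ i, w i • ic (vv B k p q m i) = (m : ℝ) • (w i • ic (uu i)) +
      (-(w i * om B k (ic (uu i)) (ic q))) • ic p +
      (-(w i * om B k (ic p) (ic (uu i)))) • ic q := by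
    intro i
    rw [ic_vv]
    module
  rw [sum_congr rfl fun i _ => h3 i, sum_add_distrib, sum_add_distrib, ← smul_sum, sum_uu,
    ← sum_smul, ← sum_smul, sum_neg_distrib, sum_neg_distrib, h1, h2]
  simp

/-- The circle through `v`. -/
def cir (B : Fin r → Fin d → Fin d → ℤ) (v : Fin d → ℝ) (t : ℝ) : Two B :=
  ⟨t • v, ((t ^ 2 - t) / 2) • bil B v v⟩

lemma cir_oneP (v : Fin d → ℝ) : IsOneP (cir B v) := by
  constructor
  · exact Two.continuous_mk (by fun_prop) (by fun_prop)
  · intro a b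
    apply Two.ext
    · simp [cir, add_smul]
    · simp only [cir, Two.mul_z, bil_smul_left, bil_smul_right]
      module

lemma cir_one (v : Fin d → ℝ) : cir B v 1 = ⟨v, 0⟩ := by
  apply Two.ext <;> simp [cir]

lemma ee0 : ee 0 = 1 := by simpa using ee_int 0

lemma comm {F : Two B → ℂ} (hF : VerK k F) (a b g : Two B) (h : om B k a.x b.x = 0) :
    F (a * (b * g)) = F (b * (a * g)) := by
  have e : a * (b * g) = b * (a * g) * ⟨0, bil B a.x b.x - bil B b.x a.x⟩ := by
    apply Two.ext
    · simp only [Two.mul_x]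
      abel
    · simp only [Two.mul_z, Two.mul_x, bil_add_right, bil_zero_right]
      abel
  have hk : kz k (bil B a.x b.x - bil B b.x a.x) = 0 := h
  rw [e, hF.2, hk, ee0, one_mul]

/-- The elements acting by a scalar. -/
def Sc (F : Two B → ℂ) (w : Two B) : Prop := ∃ lam : ℝ, ∀ g, F (w * g) = ee lam * F g

lemma sc_mul {F : Two B → ℂ} {w w' : Two B} (h : Sc F w) (h' : Sc F w') : Sc F (w * w') := by
  obtain ⟨l, h⟩ := h
  obtain ⟨l', h'⟩ := h'
  refine ⟨l + l', fun g => ?_⟩
  rw [mul_assoc, h, h', ee_add]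
  ring

lemma sc_cen {F : Two B → ℂ} (hF : VerK k F) (z : Fin r → ℝ) : Sc F ⟨0, z⟩ := by
  refine ⟨kz k z, fun g => ?_⟩
  rw [← hF.2]
  congr 1
  apply Two.ext
  · simp
  · simp only [Two.mul_z, bil_zero_left, bil_zero_right]
    abel

lemma sc_sum {F : Two B → ℂ} (hF : VerK k F) {ι : Type*} (v : ι → Fin d → ℝ) (t : ι → ℝ)
    (h : ∀ i, Sc F (cir B (v i) (t i))) (s : Finset ι) :
    ∀ z : Fin r → ℝ, Sc F ⟨∑ i ∈ s, t i • v i, z⟩ := by
  classical
  induction s using Finset.induction_on with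
  | empty => intro z; simpa using sc_cen hF z
  | insert a s ha ih =>
    intro z
    have e : (⟨∑ i ∈ insert a s, t i • v i, z⟩ : Two B) = cir B (v a) (t a) *
        ⟨∑ i ∈ s, t i • v i, z - ((t a ^ 2 - t a) / 2) • bil B (v a) (v a) -
          bil B (t a • v a) (∑ i ∈ s, t i • v i)⟩ := by
      apply Two.ext
      · simp [cir, sum_insert ha]
      · simp only [cir, Two.mul_z]
        abel
    rw [e]
    exact sc_mul (h a) (ih _)

end RADx

open RADx

theorem rowRAD : RAD_stmt := by
  intro hCO d r B k p q m hP F hF ε hε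
  have hes : ∀ e ∈ (List.finRange d).map fun i => cir B (ic (vv B k p q m i)),
      ∃ i, e = cir B (ic (vv B k p q m i)) := by
    intro e he
    obtain ⟨i, -, rfl⟩ := List.mem_map.1 he
    exact ⟨i, rfl⟩
  obtain ⟨ι, hι, Fs, h1, h2⟩ := fourier_list (Gam B) (hCO d r B)
    ((List.finRange d).map fun i => cir B (ic (vv B k p q m i)))
    (fun e he => by obtain ⟨i, rfl⟩ := hes e he; exact cir_oneP _)
    (VerK k) (fun F h => h.1)
    (fun F hF e he x => by
      obtain ⟨i, rfl⟩ := hes e he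
      have h := comm hF ⟨ic (vv B k p q m i), 0⟩ x 1 (vv_rad hP i _)
      rw [mul_one, mul_one] at h
      rw [cir_one, h]
      exact hF.1.2 _ _ ⟨vv B k p q m i, 0, by apply Two.ext <;> (funext j; simp [ic])⟩)
    (fun F hF e he e' he' s s' x => by
      obtain ⟨i, rfl⟩ := hes e he
      refine comm hF _ _ _ ?_
      show om B k (s • ic (vv B k p q m i)) _ = 0
      rw [om_smul_left, vv_rad hP, mul_zero])
    (fun F hF e he n => by
      obtain ⟨i, rfl⟩ := hes e he
      refine ⟨reg_Pop _ F hF.1 _ (cir_oneP _).1 n, fun g z => ?_⟩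
      simp only [Pop]
      rw [← intervalIntegral.integral_const_mul]
      congr 1
      funext s
      rw [← mul_assoc, hF.2]
      ring)
    (fun F hF c => ⟨⟨continuous_const.mul hF.1.1, fun x γ hγ => by
        show c * F (x * γ) = c * F x
        rw [hF.1.2 x γ hγ]⟩, fun g z => by
      show c * F (g * ⟨0, z⟩) = ee (kz k z) * (c * F g)
      rw [hF.2]
      ring⟩) F hF ε hε
  refine ⟨ι, hι, Fs, fun i => ⟨(h1 i).1, fun w hw => ?_⟩, h2⟩
  have hm : (m : ℝ) ≠ 0 := by exact_mod_cast hP.1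
  have hc : ∀ j, Sc (Fs i) (cir B (ic (vv B k p q m j)) (w.x j / m)) := by
    intro j
    obtain ⟨n, hn⟩ := (h1 i).2 (cir B (ic (vv B k p q m j)))
      (List.mem_map.2 ⟨j, List.mem_finRange j, rfl⟩)
    exact ⟨n * (w.x j / m), fun g => hn _ g⟩
  have h3 := sc_sum (h1 i).1 (fun j => ic (vv B k p q m j)) (fun j => w.x j / m) hc univ w.z
  have h4 : ∑ j, (w.x j / m) • ic (vv B k p q m j) = w.x := by
    have h5 : ∀ j, (w.x j / m) • ic (vv B k p q m j) =
        (m : ℝ)⁻¹ • (w.x j • ic (vv B k p q m j)) := by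
      intro j
      rw [smul_smul]
      congr 1
      ring
    rw [sum_congr rfl fun j _ => h5 j, ← smul_sum, sum_vv w.x hw, smul_smul, inv_mul_cancel₀ hm,
      one_smul]
  rw [h4] at h3
  exact h3

end

end Pool.Agent.TS2
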