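import Mathlib
import Pool.Agent.Lib.TS2.Defs
import Pool.Agent.Lib.HB.Basic

/-!
# Row SUM (MP_663568_nt): finite sums and uniform limits.  helper93
-/

set_option autoImplicit false
open Finset MeasureTheory

namespace Pool.Agent.TS2

open Pool.Agent.Lib.MP_663568_nt Pool.Agent.Lib.MP_663568_nt.Katai
  Pool.Agent.Lib.MP_663568_nt.Nul Pool.Agent.Lib.MP_663568_nt.Fib

namespace SUMx

variable {d r : ℕ} {B : Fin r → Fin d → Fin d → ℤ}

lemma one_le_log {N : ℕ} (h : 3 ≤ N) : 1 ≤ Real.log N := by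
  rw [Real.le_log_iff_exp_le (by positivity)]
  have h1 := Real.exp_one_lt_d9
  have h2 : (3 : ℝ) ≤ N := by exact_mod_cast h
  linarith

lemma W2_bdd {F : Two B → ℂ} {C : ℝ} (hC : ∀ g, ‖F g‖ ≤ C) (S : Set (Two B)) (H n : ℕ) :
    BddAbove (Set.range fun v : {v : Two B × Two B // v.1 ∈ S} =>
      ‖∑ h ∈ Icc 1 H, muC (n + h) * F (v.1.1 ^ h * v.1.2)‖) :=
  ⟨H * C, by rintro _ ⟨v, rfl⟩; exact HB.norm_sum_mu_le (fun h => hC _) H n⟩

lemma W2_nonneg (F : Two B → ℂ) (S : Set (Two B)) (H n : ℕ) : 0 ≤ W2 F S H n :=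
  Real.iSup_nonneg fun _ => norm_nonneg _

lemma le_W2 {F : Two B → ℂ} {C : ℝ} (hC : ∀ g, ‖F g‖ ≤ C) {S : Set (Two B)} {g : Two B}
    (hg : g ∈ S) (x : Two B) (H n : ℕ) :
    ‖∑ h ∈ Icc 1 H, muC (n + h) * F (g ^ h * x)‖ ≤ W2 F S H n :=
  le_ciSup (W2_bdd hC S H n) (⟨(g, x), hg⟩ : {v : Two B × Two B // v.1 ∈ S})

lemma W2_le {F : Two B → ℂ} {S : Set (Two B)} {H n : ℕ} {c : ℝ} (hc : 0 ≤ c)
    (h : ∀ g ∈ S, ∀ x, ‖∑ h ∈ Icc 1 H, muC (n + h) * F (g ^ h * x)‖ ≤ c) : W2 F S H n ≤ c :=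
  Real.iSup_le (fun v => h v.1.1 v.2 v.1.2) hc

end SUMx

open SUMx in
theorem rowSUM : SUM_stmt := by
  intro d r B f S hf ε hε
  obtain ⟨ι, hι, Fs, hF, hA⟩ := hf (ε / 4) (by positivity)
  have hS : (0 : ℝ) < (Fintype.card ι : ℝ) + 1 := by positivity
  have hm : ∀ i, ∃ H₀ : ℕ, ∀ H N : ℕ, H₀ ≤ H → H ≤ N →
      A2 (Fs i) S N H ≤ (ε / (4 * ((Fintype.card ι : ℝ) + 1))) * H * Real.log N := fun i =>
    (hF i).2 _ (by positivity)
  choose K hK using hm
  refine ⟨max 3 (univ.sup K), fun H N h1 h2 => ?_⟩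
  have hlog : 1 ≤ Real.log N := one_le_log (((le_max_left _ _).trans h1).trans h2)
  have hW : ∀ n, W2 f S H n ≤ ∑ i, W2 (Fs i) S H n + H * (ε / 4) := by
    intro n
    refine W2_le (add_nonneg (sum_nonneg fun _ _ => W2_nonneg _ _ _ _) (by positivity)) ?_
    intro g hg x
    have e : ∑ h ∈ Icc 1 H, muC (n + h) * f (g ^ h * x) =
        ∑ i, ∑ h ∈ Icc 1 H, muC (n + h) * Fs i (g ^ h * x) +
          ∑ h ∈ Icc 1 H, muC (n + h) * (f (g ^ h * x) - ∑ i, Fs i (g ^ h * x)) := by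
      rw [sum_comm, ← sum_add_distrib]
      refine sum_congr rfl fun h _ => ?_
      rw [← mul_sum]
      ring
    rw [e]
    refine (norm_add_le _ _).trans (add_le_add ?_ ?_)
    · refine (norm_sum_le _ _).trans (sum_le_sum fun i _ => ?_)
      obtain ⟨C, hC⟩ := (hF i).1
      exact le_W2 hC hg x H n
    · exact HB.norm_sum_mu_le (u := fun h => f (g ^ h * x) - ∑ i, Fs i (g ^ h * x))
        (fun h => hA _) H n
  calc A2 f S N H ≤ ∑ n ∈ Icc 1 N, (1 / (n : ℝ)) *
        (∑ i, W2 (Fs i) S H n + H * (ε / 4)) :=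
        sum_le_sum fun n _ => mul_le_mul_of_nonneg_left (hW n) (by positivity)
    _ = ∑ i, A2 (Fs i) S N H + (∑ n ∈ Icc 1 N, (1 / (n : ℝ))) * (H * (ε / 4)) := by
        simp_rw [mul_add]
        rw [sum_add_distrib, ← sum_mul]
        congr 1
        simp_rw [mul_sum]
        rw [sum_comm]
        rfl
    _ ≤ ∑ _i : ι, (ε / (4 * ((Fintype.card ι : ℝ) + 1))) * H * Real.log N +
          (2 * Real.log N) * (H * (ε / 4)) := by
        refine add_le_add (sum_le_sum fun i _ => hK i H N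
          ((Finset.le_sup (f := K) (mem_univ i)).trans ((le_max_right _ _).trans h1)) h2) ?_
        refine mul_le_mul_of_nonneg_right ?_ (by positivity)
        linarith [HB.sum_inv_le N]
    _ ≤ ε * H * Real.log N := by
        rw [sum_const, nsmul_eq_mul, card_univ]
        have h3 : (Fintype.card ι : ℝ) * (ε / (4 * ((Fintype.card ι : ℝ) + 1)) * H *
            Real.log N) ≤ ε / 4 * H * Real.log N := by
          have h4 : (Fintype.card ι : ℝ) * (ε / (4 * ((Fintype.card ι : ℝ) + 1))) ≤ ε / 4 := by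
            rw [← mul_div_assoc, div_le_div_iff₀ (by positivity) (by norm_num)]
            nlinarith
          calc (Fintype.card ι : ℝ) * (ε / (4 * ((Fintype.card ι : ℝ) + 1)) * H *
              Real.log N) =
              (Fintype.card ι : ℝ) * (ε / (4 * ((Fintype.card ι : ℝ) + 1))) *
                (H * Real.log N) := by ring
            _ ≤ ε / 4 * (H * Real.log N) := mul_le_mul_of_nonneg_right h4 (by positivity)
            _ = _ := by ring
        have h5 : 0 ≤ ε * (H * Real.log N) := by positivity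
        nlinarith

end Pool.Agent.TS2
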