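import Mathlib
import Pool.Agent.Lib.TS2.Defs

/-!
# Row TH2 (MP_663568_nt): the pull back by `th`.  helper93
-/

set_option autoImplicit false
open Finset MeasureTheory

namespace Pool.Agent.TS2

open Pool.Agent.Lib.MP_663568_nt Pool.Agent.Lib.MP_663568_nt.Katai
  Pool.Agent.Lib.MP_663568_nt.Nul Pool.Agent.Lib.MP_663568_nt.Fib

namespace TH2x

variable {d r : ℕ}

lemma cont_th (B : Fin r → Fin d → Fin d → ℤ) (p q : Fin d → ℤ) : Continuous (th B p q) := by
  have hx := HB.Heis.continuous_x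
  have hy := HB.Heis.continuous_y
  have hz := HB.Heis.continuous_z
  refine Two.continuous_mk ?_ ?_
  · exact (hx.smul continuous_const).add (hy.smul continuous_const)
  · exact ((((((hx.pow 2).sub hx).div_const 2).smul continuous_const).add
      ((((hy.pow 2).sub hy).div_const 2).smul continuous_const)).add
      ((hx.mul hy).smul continuous_const)).add (hz.smul continuous_const)

lemma half_int (a : ℤ) : ∃ n : ℤ, ((a : ℝ) ^ 2 - a) / 2 = n := by
  obtain ⟨n, hn⟩ := Int.even_mul_pred_self a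
  refine ⟨n, ?_⟩
  have h : (a : ℝ) * ((a : ℝ) - 1) = n + n := by exact_mod_cast hn
  linarith

lemma th_mem (B : Fin r → Fin d → Fin d → ℤ) (p q : Fin d → ℤ) {u : HB.Heis} (hu : u ∈ HB.Gam) :
    th B p q u ∈ Gam B := by
  obtain ⟨a, b, c, rfl⟩ := hu
  obtain ⟨n1, h1⟩ := half_int a
  obtain ⟨n2, h2⟩ := half_int b
  have hb : ∀ x y : Fin d → ℤ, bil B (ic x) (ic y) =
      fun c => ((∑ i, ∑ j, B c i j * (x i * y j) : ℤ) : ℝ) := fun x y => bil_int B x y
  refine ⟨fun i => a * p i + b * q i, fun e => n1 * (∑ i, ∑ j, B e i j * (p i * p j)) +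
    n2 * (∑ i, ∑ j, B e i j * (q i * q j)) + a * b * (∑ i, ∑ j, B e i j * (q i * p j)) +
    c * ((∑ i, ∑ j, B e i j * (p i * q j)) - (∑ i, ∑ j, B e i j * (q i * p j))), ?_⟩
  apply Two.ext
  · funext i
    simp [th, ic]
  · funext e
    simp only [th, h1, h2, hb, Pi.add_apply, Pi.smul_apply, Pi.sub_apply, smul_eq_mul]
    push_cast
    ring

lemma th_cen (B : Fin r → Fin d → Fin d → ℤ) (p q : Fin d → ℤ) (t : ℝ) :
    th B p q ⟨0, 0, t⟩ = ⟨0, t • (bil B (ic p) (ic q) - bil B (ic q) (ic p))⟩ := by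
  apply Two.ext
  · simp [th]
  · simp [th]

lemma kz_om (B : Fin r → Fin d → Fin d → ℤ) (k : Fin r → ℤ) (p q : Fin d → ℤ) (t : ℝ) :
    kz k (t • (bil B (ic p) (ic q) - bil B (ic q) (ic p))) = om B k (ic p) (ic q) * t := by
  simp only [kz, om, Pi.smul_apply, Pi.sub_apply, smul_eq_mul, sum_mul]
  exact sum_congr rfl fun c _ => by ring

end TH2x

open TH2x in
theorem rowTH2 : TH2_stmt := by
  intro hT d r B k p q m hm F hF
  refine ⟨⟨hF.1.1.comp (cont_th B p q), fun x γ hγ => ?_⟩, fun g t => ?_⟩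
  · show F (th B p q (x * γ)) = F (th B p q x)
    rw [hT d r B p q x γ]
    exact hF.1.2 _ _ (th_mem B p q hγ)
  · show F (th B p q (g * ⟨0, 0, t⟩)) = ee (m * t) * F (th B p q g)
    rw [hT d r B p q g ⟨0, 0, t⟩, th_cen, hF.2, kz_om, hm]

end Pool.Agent.TS2
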