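import Mathlib
import Pool.Agent.Lib.TS2.ALG
import Pool.Agent.Lib.TS2.Asm
import Pool.Agent.Lib.TS2.CG
import Pool.Agent.Lib.TS2.CI
import Pool.Agent.Lib.TS2.CO
import Pool.Agent.Lib.TS2.Cnv
import Pool.Agent.Lib.TS2.INT
import Pool.Agent.Lib.TS2.LV
import Pool.Agent.Lib.TS2.MV
import Pool.Agent.Lib.TS2.NV
import Pool.Agent.Lib.TS2.PHI
import Pool.Agent.Lib.TS2.PLK
import Pool.Agent.Lib.TS2.QQ
import Pool.Agent.Lib.TS2.RAD
import Pool.Agent.Lib.TS2.SUM
import Pool.Agent.Lib.TS2.TH1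
import Pool.Agent.Lib.TS2.TH2
import Pool.Agent.Lib.TS2.VRT

/-!
# Two-step groups, vertical frequencies of rank two (MP_663568_nt): final assembly.  (helper95)
-/

set_option autoImplicit false
open Finset MeasureTheory

namespace Pool.Agent.TS2

open Pool.Agent.Lib.MP_663568_nt Pool.Agent.Lib.MP_663568_nt.Katai
  Pool.Agent.Lib.MP_663568_nt.Nul Pool.Agent.Lib.MP_663568_nt.Fib

variable {d r : ℕ} {B : Fin r → Fin d → Fin d → ℤ}

/-- **The theorem.** -/
theorem main_all {E : Set (Fin d → ℝ)} (hE : Bornology.IsBounded E) :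
    List.TFAE [∀ f : Two B ⧸ Gam B → ℂ, Continuous f →
        Sp2 (fun g : Two B => f (QuotientGroup.mk g)) →
        ∀ x₀ : Two B, HB.Sm (AE2 (fun g => f (QuotientGroup.mk g)) E x₀),
      ∀ f : Two B ⧸ Gam B → ℂ, Continuous f → Sp2 (fun g : Two B => f (QuotientGroup.mk g)) →
        HB.Sm (A2 (fun g => f (QuotientGroup.mk g)) (Over2 B E)),
      Cond2 B (closure E)] :=
  main rowCO rowPLK rowINT rowVRT rowRAD rowTH1 rowTH2 rowALG rowSUM rowQQ rowPHI rowCNV
    (rowLV rowNV) (rowMV rowNV) rowCG rowCI hE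

end Pool.Agent.TS2
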