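import Mathlib
import Pool.Agent.Lib.TS2.Defs

/-!
# Row TH1: `th` is a homomorphism
-/

set_option autoImplicit false
open Finset

namespace Pool.Agent.TS2

theorem rowTH1 : TH1_stmt := by
  intro d r B p q u v
  apply Two.ext
  · funext i
    simp only [th, Two.mul_x, HB.Heis.mul_x, HB.Heis.mul_y, Pi.add_apply, Pi.smul_apply, smul_eq_mul]
    ring
  · simp only [th, Two.mul_z, bil_add_left, bil_add_right, bil_smul_left, bil_smul_right]
    funext c
    simp only [HB.Heis.mul_x, HB.Heis.mul_y, HB.Heis.mul_z, Pi.add_apply, Pi.smul_apply,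
      Pi.sub_apply, smul_eq_mul]
    ring

end Pool.Agent.TS2
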